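import Mathlib

set_option autoImplicit false

/-!
Block sequences of finite sets of natural numbers.
-/

namespace Pool.Agent.MP_bc74b8_gt.CHL

open Filter Set

/-- Block sequences: nonempty finite sets `c 0 < c 1 < …`. -/
structure Blk where
  c : ℕ → Finset ℕ
  ne : ∀ i, (c i).Nonempty
  lt : ∀ i, ∀ a ∈ c i, ∀ b ∈ c (i + 1), a < b

/-- equality modulo finite sets -/
def AEq (x y : Set ℕ) : Prop := (x \ y).Finite ∧ (y \ x).Finite

/-- open families of sets of natural numbers -/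
def Opn (O : Set (Set ℕ)) : Prop :=
  ∀ x ∈ O, ∃ m : ℕ, ∀ y : Set ℕ, (∀ i < m, i ∈ y ↔ i ∈ x) → y ∈ O

namespace Blk

/-- the union of all blocks -/
def un (d : Blk) : Set ℕ := {n | ∃ i, n ∈ d.c i}

/-- the union of the blocks with indices in `J` -/
def sub (d : Blk) (J : Set ℕ) : Set ℕ := {n | ∃ i ∈ J, n ∈ d.c i}

/-- finite unions of blocks -/
def fu (d : Blk) (S : Finset ℕ) : Finset ℕ := S.biUnion d.c

/-- almost all blocks of `d` are finite unions of blocks of `e` -/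
def Le (d e : Blk) : Prop := ∀ᶠ i in atTop, ∃ S : Finset ℕ, d.c i = e.fu S

/-- least element of a block -/
def mn (d : Blk) (i : ℕ) : ℕ := (d.c i).min' (d.ne i)

/-- largest element of a block -/
def mx (d : Blk) (i : ℕ) : ℕ := (d.c i).max' (d.ne i)

end Blk

lemma AEq.refl (x : Set ℕ) : AEq x x := by simp [AEq]

lemma AEq.symm {x y : Set ℕ} (h : AEq x y) : AEq y x := ⟨h.2, h.1⟩

lemma AEq.trans {x y z : Set ℕ} (h : AEq x y) (h' : AEq y z) : AEq x z := by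
  refine ⟨(h.1.union h'.1).subset ?_, (h.2.union h'.2).subset ?_⟩
  · rintro n ⟨h1, h2⟩
    by_cases h3 : n ∈ y
    · exact Or.inr ⟨h3, h2⟩
    · exact Or.inl ⟨h1, h3⟩
  · rintro n ⟨h1, h2⟩
    by_cases h3 : n ∈ y
    · exact Or.inl ⟨h3, h2⟩
    · exact Or.inr ⟨h1, h3⟩

/-- only countably many sets are equal to a given set modulo finite sets -/
lemma countable_aeq (x : Set ℕ) : {y | AEq y x}.Countable := by
  have h : {y | AEq y x} ⊆ range fun F : Finset ℕ × Finset ℕ => (x \ ↑F.1) ∪ ↑F.2 := by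
    rintro y ⟨h1, h2⟩
    refine ⟨(h2.toFinset, h1.toFinset), ?_⟩
    ext n
    simp only [Finite.coe_toFinset, mem_union, Set.mem_sdiff]
    tauto
  exact (countable_range _).mono h

namespace Blk

variable (d e f : Blk)

lemma mn_mem (i : ℕ) : d.mn i ∈ d.c i := Finset.min'_mem _ _

lemma mx_mem (i : ℕ) : d.mx i ∈ d.c i := Finset.max'_mem _ _

lemma mn_le {i a : ℕ} (h : a ∈ d.c i) : d.mn i ≤ a := Finset.min'_le _ _ h

lemma le_mx {i a : ℕ} (h : a ∈ d.c i) : a ≤ d.mx i := Finset.le_max' _ _ h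

lemma mn_le_mx (i : ℕ) : d.mn i ≤ d.mx i := d.mn_le (d.mx_mem i)

/-- blocks are increasing -/
lemma lt_of_lt {i j a b : ℕ} (hij : i < j) (ha : a ∈ d.c i) (hb : b ∈ d.c j) : a < b := by
  induction j generalizing b with
  | zero => omega
  | succ j ih =>
    rcases Nat.lt_succ_iff_lt_or_eq.mp hij with h | h
    · exact (ih h (d.mn_mem j)).trans (d.lt j _ (d.mn_mem j) _ hb)
    · subst h
      exact d.lt i _ ha _ hb

lemma mx_lt_mn {i j : ℕ} (hij : i < j) : d.mx i < d.mn j :=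
  d.lt_of_lt hij (d.mx_mem i) (d.mn_mem j)

lemma mn_lt_mn {i j : ℕ} (hij : i < j) : d.mn i < d.mn j :=
  d.lt_of_lt hij (d.mn_mem i) (d.mn_mem j)

lemma mn_strictMono : StrictMono d.mn := fun _ _ h => d.mn_lt_mn h

lemma mx_strictMono : StrictMono d.mx := fun _ _ h =>
  d.lt_of_lt h (d.mx_mem _) (d.mx_mem _)

lemma le_mn (i : ℕ) : i ≤ d.mn i := d.mn_strictMono.le_apply

lemma index_le {i a : ℕ} (h : a ∈ d.c i) : i ≤ a := (d.le_mn i).trans (d.mn_le h)

/-- an element lies in one block only -/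
lemma index_unique {i j a : ℕ} (hi : a ∈ d.c i) (hj : a ∈ d.c j) : i = j := by
  rcases lt_trichotomy i j with h | h | h
  · exact absurd (d.lt_of_lt h hi hj) (lt_irrefl a)
  · exact h
  · exact absurd (d.lt_of_lt h hj hi) (lt_irrefl a)

lemma mem_fu {S : Finset ℕ} {a : ℕ} : a ∈ d.fu S ↔ ∃ i ∈ S, a ∈ d.c i := by
  simp [fu]

lemma coe_fu (S : Finset ℕ) : (↑(d.fu S) : Set ℕ) = d.sub ↑S := by
  ext a
  simp [mem_fu, sub]

lemma un_eq : d.un = d.sub univ := by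
  ext a
  simp [un, sub]

lemma sub_mono {J K : Set ℕ} (h : J ⊆ K) : d.sub J ⊆ d.sub K := by
  rintro a ⟨i, hi, ha⟩
  exact ⟨i, h hi, ha⟩

lemma c_subset_sub {J : Set ℕ} {i : ℕ} (hi : i ∈ J) : (↑(d.c i) : Set ℕ) ⊆ d.sub J :=
  fun _ ha => ⟨i, hi, ha⟩

lemma mem_sub_iff {J : Set ℕ} {i a : ℕ} (ha : a ∈ d.c i) : a ∈ d.sub J ↔ i ∈ J := by
  constructor
  · rintro ⟨j, hj, haj⟩
    rwa [d.index_unique ha haj]
  · exact fun h => ⟨i, h, ha⟩

lemma sub_diff (J K : Set ℕ) : d.sub J \ d.sub K = d.sub (J \ K) := by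
  ext a
  constructor
  · rintro ⟨⟨i, hi, ha⟩, h⟩
    exact ⟨i, ⟨hi, fun hK => h ⟨i, hK, ha⟩⟩, ha⟩
  · rintro ⟨i, hi, ha⟩
    exact ⟨⟨i, hi.1, ha⟩, fun h => hi.2 ((d.mem_sub_iff ha).mp h)⟩

lemma sub_finite {J : Set ℕ} : (d.sub J).Finite ↔ J.Finite := by
  classical
  constructor
  · intro h
    refine (h.image fun a => if h : ∃ i, a ∈ d.c i then h.choose else 0).subset ?_
    intro i hi
    refine ⟨d.mn i, ⟨i, hi, d.mn_mem i⟩, ?_⟩
    have h1 : ∃ j, d.mn i ∈ d.c j := ⟨i, d.mn_mem i⟩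
    simp only [dif_pos h1]
    exact (d.index_unique (d.mn_mem i) h1.choose_spec).symm
  · intro h
    have : d.sub J = ⋃ i ∈ J, (↑(d.c i) : Set ℕ) := by
      ext a; simp [sub]
    rw [this]
    exact h.biUnion fun i _ => (d.c i).finite_toSet

/-- composition: blocks of indices -/
def comp (c G : Blk) : Blk where
  c j := c.fu (G.c j)
  ne j := by
    obtain ⟨i, hi⟩ := G.ne j
    obtain ⟨a, ha⟩ := c.ne i
    exact ⟨a, c.mem_fu.mpr ⟨i, hi, ha⟩⟩
  lt j a ha b hb := by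
    obtain ⟨i, hi, ha⟩ := c.mem_fu.mp ha
    obtain ⟨i', hi', hb⟩ := c.mem_fu.mp hb
    exact c.lt_of_lt (G.lt j i hi i' hi') ha hb

lemma comp_c (c G : Blk) (j : ℕ) : (c.comp G).c j = c.fu (G.c j) := rfl

lemma comp_sub (c G : Blk) (J : Set ℕ) : (c.comp G).sub J = c.sub (G.sub J) := by
  ext a
  constructor
  · rintro ⟨j, hj, ha⟩
    obtain ⟨i, hi, ha⟩ := c.mem_fu.mp ha
    exact ⟨i, ⟨j, hj, hi⟩, ha⟩
  · rintro ⟨i, ⟨j, hj, hi⟩, ha⟩
    exact ⟨j, hj, c.mem_fu.mpr ⟨i, hi, ha⟩⟩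

lemma comp_fu (c G : Blk) (S : Finset ℕ) : (c.comp G).fu S = c.fu (G.fu S) := by
  ext a
  rw [← Finset.mem_coe, ← Finset.mem_coe, coe_fu, coe_fu, comp_sub, coe_fu]

lemma comp_le (c G : Blk) : (c.comp G).Le c := Eventually.of_forall fun j => ⟨G.c j, rfl⟩

variable {d e f}

lemma Le.refl (d : Blk) : d.Le d :=
  Eventually.of_forall fun i => ⟨{i}, by simp [fu]⟩

lemma Le.trans (h : d.Le e) (h' : e.Le f) : d.Le f := by
  obtain ⟨N, hN⟩ := eventually_atTop.mp h'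
  obtain ⟨M, hM⟩ := eventually_atTop.mp h
  refine eventually_atTop.mpr ⟨max M (e.mx N + 1), fun i hi => ?_⟩
  obtain ⟨S, hS⟩ := hM i (le_trans (le_max_left _ _) hi)
  have h1 : ∀ j ∈ S, N ≤ j := by
    intro j hj
    by_contra hlt
    push Not at hlt
    have h2 : e.mn j ∈ d.c i := by
      rw [hS, e.mem_fu]
      exact ⟨j, hj, e.mn_mem j⟩
    have h3 := d.index_le h2
    have h4 := e.lt_of_lt hlt (e.mn_mem j) (e.mx_mem N)
    have h5 := le_trans (le_max_right _ _) hi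
    omega
  choose! T hT using hN
  refine ⟨S.biUnion T, ?_⟩
  rw [hS]
  ext a
  simp only [mem_fu, Finset.mem_biUnion]
  constructor
  · rintro ⟨j, hj, ha⟩
    rw [hT j (h1 j hj), f.mem_fu] at ha
    obtain ⟨l, hl, ha⟩ := ha
    exact ⟨l, ⟨j, hj, hl⟩, ha⟩
  · rintro ⟨l, ⟨j, hj, hl⟩, ha⟩
    refine ⟨j, hj, ?_⟩
    rw [hT j (h1 j hj), f.mem_fu]
    exact ⟨l, hl, ha⟩

/-- If `d ≤* e`, the union of `d` is almost the union of infinitely many blocks of `e`. -/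
lemma Le.exists_index (h : d.Le e) :
    ∃ J : Set ℕ, J.Infinite ∧ AEq d.un (e.sub J) ∧ ∀ᶠ i in atTop, i ∈ J ↔ (↑(e.c i) : Set ℕ) ⊆ d.un := by
  obtain ⟨M, hM⟩ := eventually_atTop.mp h
  choose! S hS using hM
  let J : Set ℕ := ⋃ i ∈ Ici M, (↑(S i) : Set ℕ)
  have hJ : e.sub J = d.sub (Ici M) := by
    ext a
    constructor
    · rintro ⟨j, hj, ha⟩
      simp only [J, mem_iUnion] at hj
      obtain ⟨i, hi, hji⟩ := hj
      refine ⟨i, hi, ?_⟩
      rw [hS i hi, e.mem_fu]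
      exact ⟨j, hji, ha⟩
    · rintro ⟨i, hi, ha⟩
      rw [hS i hi, e.mem_fu] at ha
      obtain ⟨j, hj, ha⟩ := ha
      exact ⟨j, mem_iUnion₂.mpr ⟨i, hi, hj⟩, ha⟩
  have h1 : AEq d.un (e.sub J) := by
    rw [hJ, un_eq]
    constructor
    · rw [sub_diff, sub_finite]
      refine (finite_Iio M).subset ?_
      rintro i ⟨-, hi⟩
      simpa using hi
    · rw [sub_diff, sub_finite]
      simp
  have hinf : J.Infinite := by
    rw [← Set.not_finite, ← e.sub_finite, hJ, d.sub_finite]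
    exact Ici_infinite M
  refine ⟨J, hinf, h1, ?_⟩
  have h2 : ∀ᶠ i in atTop, ∀ a ∈ e.c i, a ∉ d.un \ e.sub J ∧ a ∉ e.sub J \ d.un := by
    obtain ⟨B, hB⟩ := (h1.1.union h1.2).bddAbove
    refine eventually_atTop.mpr ⟨B + 1, fun i hi a ha => ?_⟩
    have h3 := e.index_le ha
    constructor
    · intro h4
      have := hB (Or.inl h4)
      omega
    · intro h4
      have := hB (Or.inr h4)
      omega
  filter_upwards [h2] with i hi
  constructor
  · intro hiJ a ha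
    by_contra hcon
    exact (hi a ha).2 ⟨⟨i, hiJ, ha⟩, hcon⟩
  · intro hsub
    by_contra hcon
    refine (hi _ (e.mn_mem i)).1 ⟨hsub (e.mn_mem i), fun h => hcon ?_⟩
    exact (e.mem_sub_iff (e.mn_mem i)).mp h

end Blk

end Pool.Agent.MP_bc74b8_gt.CHL
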