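import Pool.Agent.Lib.MP_bc74b8_gt.CH.Blk

set_option autoImplicit false

namespace Pool.Agent.MP_bc74b8_gt.CHL

open Filter Set

/-- one step of the recursion -/
private lemma step1_aux (c : Blk) (U : ℕ → Set (Set ℕ)) (hU : ∀ n, Opn (U n))
    (f : ℕ → Set ℕ)
    (hω : ∀ F : Finset (Set ℕ), (∀ y ∈ F, y ∈ range f ∨ AEq y c.un) →
      {n | ∀ y ∈ F, y ∈ U n}.Infinite) (j a : ℕ) (used : Finset ℕ) :
    ∃ k l a' : ℕ, k ∉ used ∧ l ∉ used ∧ k ≠ l ∧
      (∀ s : Finset ℕ, s ⊆ Finset.range (c.mn a) →
        ((↑s ∪ (c.un \ Iio (c.mn a)) : Set ℕ) ∈ U k ∧ (↑s ∪ (c.un \ Iio (c.mn a)) : Set ℕ) ∈ U l)) ∧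
      (∀ i < j, f i ∈ U k ∧ f i ∈ U l) ∧ a < a' ∧
      ∀ y : Set ℕ, (∀ n, c.mn a ≤ n → n ≤ c.mx (a' - 1) →
        (n ∈ y ↔ n ∈ c.fu (Finset.Ico a a'))) → y ∈ U k ∧ y ∈ U l := by
  classical
  set m := c.mn a with hm
  let g : Finset ℕ → Set ℕ := fun s => ↑s ∪ (c.un \ Iio m)
  set F : Finset (Set ℕ) := ((Finset.range m).powerset.image g) ∪ (Finset.range j).image f with hF
  have hFin : ∀ y ∈ F, y ∈ range f ∨ AEq y c.un := by
    intro y hy
    rw [hF, Finset.mem_union, Finset.mem_image, Finset.mem_image] at hy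
    rcases hy with ⟨s, -, rfl⟩ | ⟨i, -, rfl⟩
    · right
      constructor
      · refine (s.finite_toSet).subset ?_
        rintro n ⟨h1 | h1, h2⟩
        · exact h1
        · exact absurd h1.1 h2
      · refine (finite_Iio m).subset ?_
        rintro n ⟨h1, h2⟩
        by_contra h3
        exact h2 (Or.inr ⟨h1, h3⟩)
    · left; exact mem_range_self i
  have hinf := hω F hFin
  obtain ⟨k, hk, hku⟩ := hinf.exists_notMem_finset used
  obtain ⟨l, hl, hlu⟩ := hinf.exists_notMem_finset (insert k used)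
  rw [Finset.mem_insert, not_or] at hlu
  have hkF : ∀ y ∈ F, y ∈ U k := hk
  have hlF : ∀ y ∈ F, y ∈ U l := hl
  have hg : ∀ s ∈ (Finset.range m).powerset, g s ∈ F := fun s hs =>
    Finset.mem_union_left _ (Finset.mem_image_of_mem g hs)
  have hexk : ∀ s : Finset ℕ, ∃ M : ℕ, s ∈ (Finset.range m).powerset →
      ∀ y : Set ℕ, (∀ i < M, i ∈ y ↔ i ∈ g s) → y ∈ U k := by
    intro s
    by_cases hs : s ∈ (Finset.range m).powerset
    · obtain ⟨M, hM⟩ := hU k (g s) (hkF _ (hg s hs))
      exact ⟨M, fun _ => hM⟩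
    · exact ⟨0, fun h => absurd h hs⟩
  have hexl : ∀ s : Finset ℕ, ∃ M : ℕ, s ∈ (Finset.range m).powerset →
      ∀ y : Set ℕ, (∀ i < M, i ∈ y ↔ i ∈ g s) → y ∈ U l := by
    intro s
    by_cases hs : s ∈ (Finset.range m).powerset
    · obtain ⟨M, hM⟩ := hU l (g s) (hlF _ (hg s hs))
      exact ⟨M, fun _ => hM⟩
    · exact ⟨0, fun h => absurd h hs⟩
  choose Mk hMk using hexk
  choose Ml hMl using hexl
  set M := (Finset.range m).powerset.sup (fun s => max (Mk s) (Ml s)) with hM
  have hMle : ∀ s ∈ (Finset.range m).powerset, Mk s ≤ M ∧ Ml s ≤ M := by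
    intro s hs
    have h := Finset.le_sup (f := fun s => max (Mk s) (Ml s)) hs
    exact ⟨le_trans (le_max_left _ _) h, le_trans (le_max_right _ _) h⟩
  refine ⟨k, l, max (a + 1) (M + 1), hku, hlu.2, Ne.symm hlu.1, ?_, ?_, ?_, ?_⟩
  · intro s hs
    have h := hg s (Finset.mem_powerset.2 hs)
    exact ⟨hkF _ h, hlF _ h⟩
  · intro i hi
    have h : f i ∈ F := Finset.mem_union_right _ (Finset.mem_image_of_mem f (Finset.mem_range.2 hi))
    exact ⟨hkF _ h, hlF _ h⟩
  · exact lt_of_lt_of_le (Nat.lt_succ_self a) (le_max_left _ _)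
  · intro y hy
    set a' := max (a + 1) (M + 1) with ha'
    have h1 : M + 1 ≤ a' := le_max_right _ _
    have hmx : M ≤ c.mx (a' - 1) := by
      have h2 := c.le_mn (a' - 1)
      have h3 := c.mn_le_mx (a' - 1)
      omega
    set s : Finset ℕ := (Finset.range m).filter (fun n => n ∈ y) with hs
    have hsP : s ∈ (Finset.range m).powerset := Finset.mem_powerset.2 (Finset.filter_subset _ _)
    have hagree : ∀ i < M, i ∈ y ↔ i ∈ g s := by
      intro i hi
      have hgs : i ∈ g s ↔ i ∈ s ∨ (i ∈ c.un ∧ ¬ i < m) := by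
        change i ∈ (↑s ∪ (c.un \ Iio m) : Set ℕ) ↔ _
        rw [Set.mem_union, Set.mem_sdiff, Finset.mem_coe, Set.mem_Iio]
      rw [hgs]
      by_cases him : i < m
      · have : i ∈ s ↔ i ∈ y := by rw [hs, Finset.mem_filter, Finset.mem_range]; simp [him]
        rw [this]; simp [him]
      · have h4 : i ∉ s := by
          rw [hs, Finset.mem_filter, Finset.mem_range]
          exact fun h => him h.1
        have h5 := hy i (by omega) (by omega)
        rw [h5, c.mem_fu]
        simp only [h4, him, not_false_iff, and_true, false_or]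
        constructor
        · rintro ⟨i0, -, hi0⟩
          exact ⟨i0, hi0⟩
        · rintro ⟨i0, hi0⟩
          refine ⟨i0, ?_, hi0⟩
          rw [Finset.mem_Ico]
          constructor
          · by_contra hlt
            push Not at hlt
            have := c.lt_of_lt hlt hi0 (c.mn_mem a)
            omega
          · have := c.index_le hi0
            omega
    exact ⟨hMk s hsP y (fun i hi => hagree i (lt_of_lt_of_le hi (hMle s hsP).1)),
      hMl s hsP y (fun i hi => hagree i (lt_of_lt_of_le hi (hMle s hsP).2))⟩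

/-- Every block guarantees membership in a member of the cover. -/
theorem step1 (c : Blk) (Y : Set (Set ℕ)) (hY : Y.Countable) (U : ℕ → Set (Set ℕ))
    (hU : ∀ n, Opn (U n))
    (hω : ∀ F : Finset (Set ℕ), (∀ y ∈ F, y ∈ Y ∨ AEq y c.un) → {n | ∀ y ∈ F, y ∈ U n}.Infinite) :
    ∃ (G : Blk) (k l : ℕ → ℕ), Function.Injective k ∧ Function.Injective l ∧ (∀ i j, k i ≠ l j) ∧
      (∀ y, (y ∈ Y ∨ AEq y c.un) → ∀ᶠ j in atTop, y ∈ U (k j) ∧ y ∈ U (l j)) ∧
      ∀ j, ∀ y : Set ℕ, (∀ n, (c.comp G).mn j ≤ n → n ≤ (c.comp G).mx j →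
        (n ∈ y ↔ n ∈ (c.comp G).c j)) → y ∈ U (k j) ∧ y ∈ U (l j) := by
  classical
  -- enumerate `Y` together with `c.un`
  obtain ⟨f, hf⟩ := (hY.insert c.un).exists_eq_range (insert_nonempty _ _)
  have hω' : ∀ F : Finset (Set ℕ), (∀ y ∈ F, y ∈ range f ∨ AEq y c.un) →
      {n | ∀ y ∈ F, y ∈ U n}.Infinite := by
    intro F hF
    apply hω F
    intro y hy
    rcases hF y hy with h | h
    · rw [← hf, Set.mem_insert_iff] at h
      rcases h with h | h
      · right; rw [h]; exact AEq.refl _
      · exact Or.inl h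
    · exact Or.inr h
  have haux := step1_aux c U hU f hω'
  choose K L A' hK hL hKL hs hfi hlt hblock using haux
  -- the sequence of states
  let st : ℕ → ℕ × Finset ℕ := fun j => Nat.rec (0, ∅)
    (fun j p => (A' j p.1 p.2, insert (K j p.1 p.2) (insert (L j p.1 p.2) p.2))) j
  have hst : ∀ j, st (j + 1) = (A' j (st j).1 (st j).2,
    insert (K j (st j).1 (st j).2) (insert (L j (st j).1 (st j).2) (st j).2)) := fun j => rfl
  let a : ℕ → ℕ := fun j => (st j).1
  let used : ℕ → Finset ℕ := fun j => (st j).2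
  let k : ℕ → ℕ := fun j => K j (a j) (used j)
  let l : ℕ → ℕ := fun j => L j (a j) (used j)
  have ha1 : ∀ j, a (j + 1) = A' j (a j) (used j) := fun j => by
    change (st (j + 1)).1 = _; rw [hst]
  have hu1 : ∀ j, used (j + 1) = insert (k j) (insert (l j) (used j)) := fun j => by
    change (st (j + 1)).2 = _; rw [hst]
  have hamono : StrictMono a := strictMono_nat_of_lt_succ (fun j => by
    rw [ha1]; exact hlt j (a j) (used j))
  have hmono : ∀ i j, i ≤ j → used i ⊆ used j := by
    intro i j hij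
    induction hij with
    | refl => exact Finset.Subset.refl _
    | step _ ih =>
      rw [hu1]
      exact ih.trans ((Finset.subset_insert _ _).trans (Finset.subset_insert _ _))
  have hkmem : ∀ i j, i < j → k i ∈ used j := by
    intro i j hij
    apply hmono (i + 1) j hij
    rw [hu1]; simp
  have hlmem : ∀ i j, i < j → l i ∈ used j := by
    intro i j hij
    apply hmono (i + 1) j hij
    rw [hu1]; simp
  have hkn : ∀ j, k j ∉ used j := fun j => hK j (a j) (used j)
  have hln : ∀ j, l j ∉ used j := fun j => hL j (a j) (used j)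
  let G : Blk :=
    { c := fun j => Finset.Ico (a j) (a (j + 1))
      ne := fun j => Finset.nonempty_Ico.2 (hamono (Nat.lt_succ_self j))
      lt := fun j x hx y hy => by
        rw [Finset.mem_Ico] at hx hy
        exact lt_of_lt_of_le hx.2 hy.1 }
  refine ⟨G, k, l, ?_, ?_, ?_, ?_, ?_⟩
  · intro i j hij
    rcases lt_trichotomy i j with h | h | h
    · exact absurd (hij ▸ hkmem i j h) (hkn j)
    · exact h
    · exact absurd (hij ▸ hkmem j i h) (hkn i)
  · intro i j hij
    rcases lt_trichotomy i j with h | h | h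
    · exact absurd (hij ▸ hlmem i j h) (hln j)
    · exact h
    · exact absurd (hij ▸ hlmem j i h) (hln i)
  · intro i j hij
    rcases lt_trichotomy i j with h | h | h
    · exact absurd (hij ▸ hkmem i j h) (hln j)
    · subst h
      exact hKL i (a i) (used i) hij
    · exact absurd (hij ▸ hlmem j i h) (hkn i)
  · intro y hy
    rcases hy with hy | hy
    · have : y ∈ range f := by rw [← hf]; exact mem_insert_of_mem _ hy
      obtain ⟨i, rfl⟩ := this
      refine eventually_atTop.2 ⟨i + 1, fun j hj => ?_⟩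
      exact hfi j (a j) (used j) i (by omega)
    · obtain ⟨B, hB⟩ := (hy.1.union hy.2).bddAbove
      refine eventually_atTop.2 ⟨B + 1, fun j hj => ?_⟩
      have hB' : ∀ n, B < n → (n ∈ y ↔ n ∈ c.un) := by
        intro n hn
        constructor
        · intro h
          by_contra h'
          have := hB (Or.inl ⟨h, h'⟩)
          omega
        · intro h
          by_contra h'
          have := hB (Or.inr ⟨h, h'⟩)
          omega
      have h1 : j ≤ a j := hamono.le_apply
      have h2 : a j ≤ c.mn (a j) := c.le_mn _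
      have hsub : (Finset.range (c.mn (a j))).filter (fun n => n ∈ y) ⊆
        Finset.range (c.mn (a j)) := Finset.filter_subset _ _
      have h3 := hs j (a j) (used j) _ hsub
      have h4 : (↑((Finset.range (c.mn (a j))).filter (fun n => n ∈ y)) ∪
          (c.un \ Iio (c.mn (a j))) : Set ℕ) = y := by
        ext n
        rw [Set.mem_union, Set.mem_sdiff, Finset.mem_coe, Set.mem_Iio, Finset.mem_filter,
          Finset.mem_range]
        by_cases hn : n < c.mn (a j)
        · simp [hn]
        · have := hB' n (by omega)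
          simp [hn, this]
      rw [h4] at h3
      exact h3
  · intro j y hy
    apply hblock j (a j) (used j) y
    intro n h1 h2
    have hlt' : a j < a (j + 1) := hamono (Nat.lt_succ_self j)
    have h3 : (c.comp G).mn j ≤ c.mn (a j) := by
      apply Blk.mn_le
      rw [Blk.comp_c, c.mem_fu]
      exact ⟨a j, Finset.mem_Ico.2 ⟨le_rfl, hlt'⟩, c.mn_mem _⟩
    have h4 : c.mx (a (j + 1) - 1) ≤ (c.comp G).mx j := by
      apply Blk.le_mx
      rw [Blk.comp_c, c.mem_fu]
      exact ⟨a (j + 1) - 1, Finset.mem_Ico.2 ⟨by omega, by omega⟩, c.mx_mem _⟩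
    rw [← ha1] at h2
    have h5 := hy n (h3.trans h1) (h2.trans h4)
    rw [h5, ← ha1]
    rfl

end Pool.Agent.MP_bc74b8_gt.CHL
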