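import Pool.Agent.Lib.MP_bc74b8_gt.CH.Ramsey
import Pool.Agent.Lib.MP_bc74b8_gt.CH.Step1

set_option autoImplicit false

namespace Pool.Agent.MP_bc74b8_gt.CHL

open Filter Set

/-- One step of the construction. -/
theorem step (c : Blk) (Y : Set (Set ℕ)) (hY : Y.Countable) (U : ℕ → Set (Set ℕ))
    (hU : ∀ n, Opn (U n))
    (hω : ∀ F : Finset (Set ℕ), (∀ y ∈ F, y ∈ Y ∨ AEq y c.un) → {n | ∀ y ∈ F, y ∈ U n}.Infinite) :
    ∃ (d : Blk) (k l : ℕ → ℕ), d.Le c ∧
      Function.Injective k ∧ Function.Injective l ∧ (∀ i j, k i ≠ l j) ∧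
      (∀ y, (y ∈ Y ∨ AEq y c.un) → ∀ᶠ j in atTop, y ∈ U (k j) ∧ y ∈ U (l j)) ∧
      ∀ (J : Set ℕ) (y : Set ℕ), J.Infinite → AEq y (d.sub J) →
        (∀ᶠ j in atTop, j ∈ J → y ∈ U (k j) ∧ y ∈ U (l j)) ∧
        ((∀ᶠ j in atTop, j ∉ J → y ∈ U (k j)) ∨ (∀ᶠ j in atTop, j ∉ J → y ∉ U (k j))) := by
  obtain ⟨G, k, l, hk, hl, hkl, hY', hG⟩ := step1 c Y hY U hU hω
  obtain ⟨H, hH⟩ := ramsey (c.comp G) (fun n => U (k n)) (fun n => hU _)
  refine ⟨(c.comp G).comp H, fun j => k (H.mn j), fun j => l (H.mn j),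
    (Blk.comp_le _ _).trans (Blk.comp_le _ _), hk.comp H.mn_strictMono.injective,
    hl.comp H.mn_strictMono.injective, fun i j => hkl _ _, ?_, ?_⟩
  · intro y hy
    exact H.mn_strictMono.tendsto_atTop.eventually (hY' y hy)
  · intro J y hJ hyJ
    refine ⟨?_, hH J y hJ hyJ⟩
    obtain ⟨B, hB⟩ := (hyJ.1.union hyJ.2).bddAbove
    refine eventually_atTop.mpr ⟨B + 1, fun j hj hjJ => hG (H.mn j) y fun n hn1 hn2 => ?_⟩
    have hnB : B < n := by
      have h1 := (c.comp G).le_mn (H.mn j)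
      have h2 := H.le_mn j
      omega
    have h3 : n ∈ y ↔ n ∈ ((c.comp G).comp H).sub J := by
      constructor
      · intro h4
        by_contra h5
        have := hB (Or.inl ⟨h4, h5⟩)
        omega
      · intro h4
        by_contra h5
        have := hB (Or.inr ⟨h4, h5⟩)
        omega
    rw [h3]
    constructor
    · rintro ⟨j', -, hnj⟩
      rw [Blk.comp_c, Blk.mem_fu] at hnj
      obtain ⟨i', -, hni⟩ := hnj
      have hi' : i' = H.mn j := by
        rcases lt_trichotomy i' (H.mn j) with h | h | h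
        · have := (c.comp G).lt_of_lt h hni ((c.comp G).mn_mem (H.mn j))
          omega
        · exact h
        · have := (c.comp G).lt_of_lt h ((c.comp G).mx_mem (H.mn j)) hni
          omega
      rwa [← hi']
    · intro hn
      refine ⟨j, hjJ, ?_⟩
      rw [Blk.comp_c, Blk.mem_fu]
      exact ⟨H.mn j, H.mn_mem j, hn⟩

end Pool.Agent.MP_bc74b8_gt.CHL
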