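import Pool.Agent.Lib.MP_bc74b8_gt.CH.Rec
import Pool.Agent.Lib.MP_bc74b8_gt.CH.Step
import Pool.Agent.Lib.MP_bc74b8_gt.Defs

set_option autoImplicit false

namespace Pool.Agent.MP_bc74b8_gt.CHL

open Filter Set

/-! ### Almost inclusion -/

lemma finite_diff_trans {x y z : Set ℕ} (h : (x \ y).Finite) (h' : (y \ z).Finite) :
    (x \ z).Finite := by
  refine (h.union h').subset ?_
  rintro n ⟨h1, h2⟩
  by_cases h3 : n ∈ y
  · exact Or.inr ⟨h3, h2⟩
  · exact Or.inl ⟨h1, h3⟩

lemma AEq.finite_diff {x y x' y' : Set ℕ} (h : AEq x x') (h' : AEq y y') (h2 : (x' \ y').Finite) :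
    (x \ y).Finite :=
  finite_diff_trans h.1 (finite_diff_trans h2 h'.2)

lemma AEq.infinite {x y : Set ℕ} (h : AEq x y) (hy : y.Infinite) : x.Infinite := by
  intro hx
  refine hy ((hx.union h.2).subset ?_)
  intro n hn
  by_cases h3 : n ∈ x
  · exact Or.inl h3
  · exact Or.inr ⟨hn, h3⟩

namespace Blk

lemma un_infinite (d : Blk) : d.un.Infinite := by
  rw [un_eq]
  intro h
  exact Set.infinite_univ (d.sub_finite.1 h)

lemma Le.finite_diff {d e : Blk} (h : d.Le e) : (d.un \ e.un).Finite := by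
  obtain ⟨J, -, h1, -⟩ := h.exists_index
  refine h1.1.subset ?_
  rintro n ⟨hn, hn'⟩
  refine ⟨hn, fun ⟨i, _, hi⟩ => hn' ⟨i, hi⟩⟩

/-- a finite set meets only finitely many blocks -/
lemma eventually_disj (d : Blk) {F : Set ℕ} (hF : F.Finite) :
    ∀ᶠ i in atTop, ∀ a ∈ d.c i, a ∉ F := by
  obtain ⟨B, hB⟩ := hF.bddAbove
  refine eventually_atTop.mpr ⟨B + 1, fun i hi a ha h => ?_⟩
  have h3 := d.index_le ha
  have := hB h
  omega

lemma Le.mn {d e : Blk} (h : d.Le e) : ∀ᶠ i in atTop, d.mn i ∈ range e.mn := by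
  filter_upwards [h] with i ⟨S, hS⟩
  have h1 := d.mn_mem i
  rw [hS, e.mem_fu] at h1
  obtain ⟨j, hj, hj2⟩ := h1
  refine ⟨j, le_antisymm (e.mn_le hj2) (d.mn_le ?_)⟩
  rw [hS, e.mem_fu]
  exact ⟨j, hj, e.mn_mem j⟩

lemma Le.range_mn {d e : Blk} (h : d.Le e) : (range d.mn \ range e.mn).Finite := by
  have h1 := h.mn
  rw [← Nat.cofinite_eq_atTop, eventually_cofinite] at h1
  refine (h1.image d.mn).subset ?_
  rintro n ⟨⟨i, rfl⟩, hi⟩
  exact ⟨i, hi, rfl⟩

lemma range_mn_infinite (d : Blk) : (range d.mn).Infinite :=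
  infinite_range_of_injective d.mn_strictMono.injective

end Blk

/-! ### Codes -/

/-- the index set: codes of a sequence of open families and a set -/
abbrev Idx : Type := Set ((ℕ × ℕ × Finset ℕ) ⊕ ℕ)

/-- the sequence of open families coded by `s` -/
def UU (s : Idx) (n : ℕ) : Set (Set ℕ) :=
  {y | ∃ m w, Sum.inl (n, m, w) ∈ s ∧ ∀ i < m, (i ∈ y ↔ i ∈ w)}

/-- the set coded by `s` -/
def AA (s : Idx) : Set ℕ := {a | Sum.inr a ∈ s}

lemma opn_UU (s : Idx) (n : ℕ) : Opn (UU s n) := by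
  rintro x ⟨m, w, h1, h2⟩
  exact ⟨m, fun y hy => ⟨m, w, h1, fun i hi => (hy i hi).trans (h2 i hi)⟩⟩

lemma exists_code (U : ℕ → Set (Set ℕ)) (hU : ∀ n, Opn (U n)) (A : Set ℕ) :
    ∃ s : Idx, (∀ n, UU s n = U n) ∧ AA s = A := by
  classical
  refine ⟨{x | Sum.elim (fun q : ℕ × ℕ × Finset ℕ => ∀ y : Set ℕ,
    (∀ i < q.2.1, i ∈ y ↔ i ∈ q.2.2) → y ∈ U q.1) (fun a => a ∈ A) x}, fun n => ?_, ?_⟩
  · ext y
    constructor
    · rintro ⟨m, w, h1, h2⟩
      exact h1 y h2
    · intro hy
      obtain ⟨m, hm⟩ := hU n y hy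
      refine ⟨m, (Finset.range m).filter (· ∈ y), ?_, ?_⟩
      · intro z hz
        refine hm z fun i hi => ?_
        rw [hz i hi]
        simp [hi]
      · intro i hi
        simp [hi]
  · rfl

lemma mk_Idx (hCH : Cardinal.continuum.{0} = Cardinal.aleph 1) :
    Cardinal.mk Idx = Cardinal.aleph 1 := by
  rw [← hCH, Cardinal.mk_set, Cardinal.mk_eq_aleph0, Cardinal.two_power_aleph0]

/-! ### The property of the steps -/

/-- the hypothesis on the cover at a step -/
def Hyp (s : Idx) (Y : Set (Set ℕ)) (c : Blk) : Prop :=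
  ∀ F : Finset (Set ℕ), (∀ y ∈ F, y ∈ Y ∨ AEq y c.un) → {n | ∀ y ∈ F, y ∈ UU s n}.Infinite

/-- the conclusion on the cover at a step -/
def Con (s : Idx) (Y : Set (Set ℕ)) (c d : Blk) (k l : ℕ → ℕ) : Prop :=
  Function.Injective k ∧ Function.Injective l ∧ (∀ i j, k i ≠ l j) ∧
    (∀ y, (y ∈ Y ∨ AEq y c.un) → ∀ᶠ j in atTop, y ∈ UU s (k j) ∧ y ∈ UU s (l j)) ∧
    ∀ (J : Set ℕ) (y : Set ℕ), J.Infinite → AEq y (d.sub J) →
      (∀ᶠ j in atTop, j ∈ J → y ∈ UU s (k j) ∧ y ∈ UU s (l j)) ∧
      ((∀ᶠ j in atTop, j ∉ J → y ∈ UU s (k j)) ∨ (∀ᶠ j in atTop, j ∉ J → y ∉ UU s (k j)))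

/-- the property of a step -/
def QQ (s : Idx) (Y : Set (Set ℕ)) (c d : Blk) : Prop :=
  (Hyp s Y c → ∃ (d' : Blk) (k l : ℕ → ℕ), d.Le d' ∧ Con s Y c d' k l) ∧
  ((AA s).Infinite → (AA s \ d.un).Infinite) ∧
  ((∀ i, d.mn i ∈ AA s) ∨ ∀ i, d.mn i ∉ AA s)

lemma exists_QQ (s : Idx) (Y : Set (Set ℕ)) (hY : Y.Countable) (c : Blk) :
    ∃ d : Blk, d.Le c ∧ QQ s Y c d := by
  by_cases h : Hyp s Y c
  · obtain ⟨d', k, l, h1, h2⟩ := step c Y hY (UU s) (opn_UU s) h
    obtain ⟨e, he, he2, he3⟩ := exists_thin d' (AA s)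
    exact ⟨e, he.trans h1, fun _ => ⟨d', k, l, he, h2⟩, he2, he3⟩
  · obtain ⟨e, he, he2, he3⟩ := exists_thin c (AA s)
    exact ⟨e, he, fun h' => absurd h' h, he2, he3⟩

/-- The combinatorial core under the continuum hypothesis. -/
theorem core (hCH : Cardinal.continuum.{0} = Cardinal.aleph 1) : ∃ X : Set (Set ℕ),
    X.Nonempty ∧ (∀ x ∈ X, ∀ y, AEq y x → y ∈ X) ∧ (∀ x ∈ X, x.Infinite) ∧
    (∀ x ∈ X, ∀ y ∈ X, (x \ y).Finite ∨ (y \ x).Finite) ∧
    (∀ A : Set ℕ, A.Infinite → ∃ x ∈ X, (A \ x).Infinite) ∧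
    (∀ U : ℕ → Set (Set ℕ), (∀ n, Opn (U n)) →
      (∀ F : Finset (Set ℕ), ↑F ⊆ X → {n | ∀ y ∈ F, y ∈ U n}.Infinite) →
      ∃ k l : ℕ → ℕ, Function.Injective k ∧ Function.Injective l ∧ (∀ i j, k i ≠ l j) ∧
        (∀ F : Finset (Set ℕ), ↑F ⊆ X → {j | ∀ y ∈ F, y ∈ U (k j)}.Infinite) ∧
        (∀ F : Finset (Set ℕ), ↑F ⊆ X → {j | ∀ y ∈ F, y ∈ U (l j)}.Infinite) ∧
        ∀ x ∈ X, ∀ y ∈ X, {j | x ∈ U (k j) ∧ y ∉ U (k j)}.Finite ∨
          {j | y ∈ U (k j) ∧ x ∉ U (k j)}.Finite) ∧
    ∃ p : Ultrafilter ℕ, (p : Filter ℕ) ≤ cofinite ∧ HasLinearBase p := by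
  classical
  obtain ⟨r, c0, c1, hwo, hseg, h10, h01, hQ⟩ :=
    exists_rec (mk_Idx hCH) QQ exists_QQ
  have htri : ∀ s t : Idx, r s t ∨ s = t ∨ r t s := fun s t => trichotomous_of r s t
  have htrans : ∀ s t u : Idx, r s t → r t u → r s u := fun s t u h h' => _root_.trans h h'
  have hL0 : ∀ s t, r t s → (c0 s).Le (c0 t) := fun s t h => (h01 s t h).trans (h10 t)
  have hL1 : ∀ s t, r t s → (c1 s).Le (c1 t) := fun s t h => (h10 s).trans (h01 s t h)
  have habove : ∀ s, ∃ t, r s t := by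
    intro s
    by_contra hc
    push Not at hc
    have h1 : (univ : Set Idx) ⊆ {t | r t s} ∪ {s} := by
      intro t _
      rcases htri s t with h | h | h
      · exact absurd h (hc t)
      · exact Or.inr h.symm
      · exact Or.inl h
    have h2 : (univ : Set Idx).Countable := ((hseg s).union (countable_singleton s)).mono h1
    rw [Set.countable_univ_iff, ← Cardinal.mk_le_aleph0_iff, mk_Idx hCH] at h2
    exact absurd h2 (not_le.2 Cardinal.aleph0_lt_aleph_one)
  refine ⟨{y | ∃ t, AEq y (c0 t).un}, ⟨_, ∅, AEq.refl _⟩, ?_, ?_, ?_, ?_, ?_, ?_⟩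
  · rintro x ⟨t, ht⟩ y hy
    exact ⟨t, hy.trans ht⟩
  · rintro x ⟨t, ht⟩
    exact ht.infinite (c0 t).un_infinite
  · rintro x ⟨t, ht⟩ y ⟨s, hs⟩
    rcases htri s t with h | h | h
    · exact Or.inl (ht.finite_diff hs (hL0 _ _ h).finite_diff)
    · subst h
      exact Or.inl (ht.finite_diff hs (by simp))
    · exact Or.inr (hs.finite_diff ht (hL0 _ _ h).finite_diff)
  · intro A hA
    obtain ⟨s, -, hs⟩ := exists_code (fun _ => ∅) (fun _ _ h => h.elim) A
    obtain ⟨t, ht⟩ := habove s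
    refine ⟨(c0 t).un, ⟨t, AEq.refl _⟩, fun h => ?_⟩
    have h1 := (hQ s).2.1
    rw [hs] at h1
    exact h1 hA (finite_diff_trans h (h01 t s ht).finite_diff)
  · intro U hU hω
    obtain ⟨s, hs, -⟩ := exists_code U hU ∅
    have hhyp : Hyp s {y | ∃ t, r t s ∧ AEq y (c0 t).un} (c0 s) := by
      intro F hF
      simp only [hs]
      refine hω F fun y hy => ?_
      rcases hF y hy with ⟨t, -, ht⟩ | h
      · exact ⟨t, ht⟩
      · exact ⟨s, h⟩
    obtain ⟨d, k, l, hd, hk, hl, hkl, hlow, hhigh⟩ := (hQ s).1 hhyp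
    simp only [hs] at hlow hhigh
    -- the index sets
    let J : Idx → Set ℕ := fun t => {i | r s t → (↑(d.c i) : Set ℕ) ⊆ (c0 t).un}
    have hJmono : ∀ t T, (r t T ∨ t = T) → ∀ᶠ i in atTop, i ∈ J T → i ∈ J t := by
      rintro t T (h | rfl)
      · have h2 := d.eventually_disj (hL0 T t h).finite_diff
        filter_upwards [h2] with i hi h3 h4 a ha
        have h5 := h3 (htrans _ _ _ h4 h) ha
        by_contra h6
        exact hi a ha ⟨h5, h6⟩
      · exact Eventually.of_forall fun i hi => hi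
    have hLd : ∀ t, r s t → (c0 t).Le d := fun t ht => (h01 t s ht).trans hd
    have hJinf : ∀ t, (J t).Infinite := by
      intro t
      by_cases h : r s t
      · obtain ⟨K, hK, -, hK2⟩ := (hLd t h).exists_index
        intro hfin
        rw [← Nat.cofinite_eq_atTop, eventually_cofinite] at hK2
        refine hK ((hfin.union hK2).subset ?_)
        intro i hi
        by_cases h3 : i ∈ J t
        · exact Or.inl h3
        · refine Or.inr fun h4 => h3 fun _ => h4.1 hi
      · have : J t = univ := by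
          ext i
          simp only [J, Set.mem_ofPred_eq, mem_univ, iff_true]
          exact fun h' => absurd h' h
        rw [this]
        exact infinite_univ
    -- membership
    have hmem : ∀ (x : Set ℕ) t, AEq x (c0 t).un →
        (∀ᶠ j in atTop, j ∈ J t → x ∈ U (k j) ∧ x ∈ U (l j)) ∧
        ((∀ᶠ j in atTop, x ∈ U (k j)) ∨ (∀ᶠ j in atTop, j ∉ J t → x ∉ U (k j))) := by
      intro x t hx
      by_cases h : r s t
      · obtain ⟨K, hK, hK1, hK2⟩ := (hLd t h).exists_index
        obtain ⟨h1, h2⟩ := hhigh K x hK (hx.trans hK1)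
        have h3 : ∀ᶠ j in atTop, (j ∈ K ↔ j ∈ J t) := by
          filter_upwards [hK2] with j hj
          rw [hj]
          exact ⟨fun h4 _ => h4, fun h4 => h4 h⟩
        refine ⟨?_, ?_⟩
        · filter_upwards [h1, h3] with j hj hj2 hj3
          exact hj (hj2.2 hj3)
        · rcases h2 with h2 | h2
          · left
            filter_upwards [h1, h2] with j hj hj2
            by_cases h4 : j ∈ K
            · exact (hj h4).1
            · exact hj2 h4
          · right
            filter_upwards [h2, h3] with j hj hj2 hj3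
            exact hj fun h4 => hj3 (hj2.1 h4)
      · have h1 : ∀ᶠ j in atTop, x ∈ U (k j) ∧ x ∈ U (l j) := by
          refine hlow x ?_
          rcases htri s t with h2 | h2 | h2
          · exact absurd h2 h
          · subst h2
            exact Or.inr hx
          · exact Or.inl ⟨t, h2, hx⟩
        refine ⟨?_, Or.inl ?_⟩
        · filter_upwards [h1] with j hj _
          exact hj
        · filter_upwards [h1] with j hj
          exact hj.1
    have hfin : ∀ F : Finset (Set ℕ), (↑F : Set (Set ℕ)) ⊆ {y | ∃ t, AEq y (c0 t).un} →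
        ∃ T, ∀ᶠ j in atTop, j ∈ J T → ∀ y ∈ F, y ∈ U (k j) ∧ y ∈ U (l j) := by
      intro F hF
      have h1 : ∃ T, ∀ y ∈ F, ∃ t, AEq y (c0 t).un ∧ (r t T ∨ t = T) := by
        induction F using Finset.induction_on with
        | empty => exact ⟨s, by simp⟩
        | insert y F _ ih =>
          obtain ⟨T, hT⟩ := ih fun z hz => hF (by simp only [Finset.coe_insert]; exact Or.inr hz)
          obtain ⟨t, ht⟩ := hF (by simp : y ∈ (↑(insert y F) : Set (Set ℕ)))
          rcases htri t T with h | h | h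
          · refine ⟨T, fun z hz => ?_⟩
            rcases Finset.mem_insert.1 hz with rfl | hz
            · exact ⟨t, ht, Or.inl h⟩
            · exact hT z hz
          · refine ⟨T, fun z hz => ?_⟩
            rcases Finset.mem_insert.1 hz with rfl | hz
            · exact ⟨t, ht, Or.inr h⟩
            · exact hT z hz
          · refine ⟨t, fun z hz => ?_⟩
            rcases Finset.mem_insert.1 hz with rfl | hz
            · exact ⟨t, ht, Or.inr rfl⟩
            · obtain ⟨t', ht', ht2⟩ := hT z hz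
              refine ⟨t', ht', Or.inl ?_⟩
              rcases ht2 with ht2 | rfl
              · exact htrans _ _ _ ht2 h
              · exact h
      obtain ⟨T, hT⟩ := h1
      refine ⟨T, ?_⟩
      have h2 : ∀ᶠ j in atTop, ∀ y ∈ F, j ∈ J T → y ∈ U (k j) ∧ y ∈ U (l j) := by
        rw [eventually_all_finset]
        intro y hy
        obtain ⟨t, ht, ht2⟩ := hT y hy
        filter_upwards [hJmono t T ht2, (hmem y t ht).1] with j hj hj2 hj3
        exact hj2 (hj hj3)
      filter_upwards [h2] with j hj hj2 y hy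
      exact hj y hy hj2
    have hinf : ∀ (T : Idx) (P : ℕ → Prop), (∀ᶠ j in atTop, j ∈ J T → P j) →
        {j | P j}.Infinite := by
      intro T P hP hf
      rw [← Nat.cofinite_eq_atTop, eventually_cofinite] at hP
      refine hJinf T ((hf.union hP).subset ?_)
      intro j hj
      by_cases h : P j
      · exact Or.inl h
      · exact Or.inr fun h2 => h (h2 hj)
    refine ⟨k, l, hk, hl, hkl, ?_, ?_, ?_⟩
    · intro F hF
      obtain ⟨T, hT⟩ := hfin F hF
      refine hinf T _ ?_
      filter_upwards [hT] with j hj hj2 y hy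
      exact (hj hj2 y hy).1
    · intro F hF
      obtain ⟨T, hT⟩ := hfin F hF
      refine hinf T _ ?_
      filter_upwards [hT] with j hj hj2 y hy
      exact (hj hj2 y hy).2
    · -- linearity of traces
      have key : ∀ x y : Set ℕ, ∀ t T, AEq x (c0 t).un → AEq y (c0 T).un → (r t T ∨ t = T) →
          {j | x ∈ U (k j) ∧ y ∉ U (k j)}.Finite ∨ {j | y ∈ U (k j) ∧ x ∉ U (k j)}.Finite := by
        intro x y t T hx hy htT
        obtain ⟨hx1, -⟩ := hmem x t hx
        obtain ⟨-, hy2⟩ := hmem y T hy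
        rcases hy2 with hy2 | hy2
        · left
          rw [← Nat.cofinite_eq_atTop, eventually_cofinite] at hy2
          exact hy2.subset fun j hj => hj.2
        · right
          have h3 : ∀ᶠ j in atTop, y ∈ U (k j) → x ∈ U (k j) := by
            filter_upwards [hx1, hy2, hJmono t T htT] with j h1 h2 h3 h4
            by_cases h5 : j ∈ J T
            · exact (h1 (h3 h5)).1
            · exact absurd h4 (h2 h5)
          rw [← Nat.cofinite_eq_atTop, eventually_cofinite] at h3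
          exact h3.subset fun j hj h => hj.2 (h hj.1)
      rintro x ⟨t, ht⟩ y ⟨T, hT⟩
      rcases htri t T with h | h | h
      · exact key x y t T ht hT (Or.inl h)
      · exact key x y t T ht hT (Or.inr h)
      · exact (key y x T t hT ht (Or.inl h)).symm
  · -- the ultrafilter
    let M : Idx → Set ℕ := fun s => range (c1 s).mn
    have hM : ∀ s t, r t s → (M s \ M t).Finite := fun s t h => (hL1 s t h).range_mn
    have hMinf : ∀ s, (M s).Infinite := fun s => (c1 s).range_mn_infinite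
    have hmax : ∀ s t, ∃ u, (M u \ M s).Finite ∧ (M u \ M t).Finite := by
      intro s t
      rcases htri s t with h | h | h
      · exact ⟨t, hM t s h, by simp⟩
      · subst h
        exact ⟨s, by simp, by simp⟩
      · exact ⟨s, by simp, hM s t h⟩
    let f : Filter ℕ :=
      { sets := {A | ∃ s, (M s \ A).Finite}
        univ_sets := ⟨∅, by simp⟩
        sets_of_superset := by
          rintro A B ⟨s, hs⟩ hAB
          exact ⟨s, hs.subset (sdiff_subset_sdiff_right hAB)⟩
        inter_sets := by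
          rintro A B ⟨s, hs⟩ ⟨t, ht⟩
          obtain ⟨u, hus, hut⟩ := hmax s t
          refine ⟨u, ((finite_diff_trans hus hs).union (finite_diff_trans hut ht)).subset ?_⟩
          rintro n ⟨h1, h2⟩
          by_cases h3 : n ∈ A
          · exact Or.inr ⟨h1, fun h4 => h2 ⟨h3, h4⟩⟩
          · exact Or.inl ⟨h1, h3⟩ }
    have hf : ∀ A, A ∈ f ↔ ∃ s, (M s \ A).Finite := fun A => Iff.rfl
    have hcomp : ∀ A, Aᶜ ∉ f ↔ A ∈ f := by
      intro A
      constructor
      · intro h
        obtain ⟨s, -, hs⟩ := exists_code (fun _ => ∅) (fun _ _ h => h.elim) A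
        have h1 := (hQ s).2.2
        rw [hs] at h1
        rcases h1 with h1 | h1
        · refine ⟨s, ?_⟩
          have : M s \ A = ∅ := by
            rw [Set.sdiff_eq_empty]
            rintro _ ⟨i, rfl⟩
            exact h1 i
          rw [this]
          exact finite_empty
        · exfalso
          refine h ⟨s, ?_⟩
          have : M s \ Aᶜ = ∅ := by
            rw [Set.sdiff_eq_empty]
            rintro _ ⟨i, rfl⟩
            exact h1 i
          rw [this]
          exact finite_empty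
      · rintro ⟨s, hs⟩ ⟨t, ht⟩
        obtain ⟨u, hus, hut⟩ := hmax s t
        refine hMinf u (((finite_diff_trans hus hs).union (finite_diff_trans hut ht)).subset ?_)
        intro n h1
        by_cases h3 : n ∈ A
        · exact Or.inr ⟨h1, fun h4 => h4 h3⟩
        · exact Or.inl ⟨h1, h3⟩
    refine ⟨Ultrafilter.ofComplNotMemIff f hcomp, ?_, ?_⟩
    · intro A hA
      rw [mem_cofinite] at hA
      exact ⟨∅, hA.subset fun n hn => hn.2⟩
    · refine ⟨{b | ∃ s, AEq b (M s)}, ?_, ?_, ?_⟩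
      · rintro b ⟨s, hs⟩
        exact ⟨s, hs.2⟩
      · rintro A ⟨s, hs⟩
        refine ⟨M s ∩ A, ⟨s, ?_, ?_⟩, inter_subset_right⟩
        · refine finite_empty.subset ?_
          rintro n ⟨h1, h2⟩
          exact h2 h1.1
        · refine hs.subset ?_
          rintro n ⟨h1, h2⟩
          exact ⟨h1, fun h3 => h2 ⟨h1, h3⟩⟩
      · rintro b ⟨s, hs⟩ c ⟨t, ht⟩
        rcases htri s t with h | h | h
        · exact Or.inr (ht.finite_diff hs (hM t s h))
        · subst h
          exact Or.inl (hs.finite_diff ht (by simp))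
        · exact Or.inl (hs.finite_diff ht (hM s t h))

end Pool.Agent.MP_bc74b8_gt.CHL
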