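import Pool.Agent.Lib.MP_bc74b8_gt.CH.Blk

set_option autoImplicit false

namespace Pool.Agent.MP_bc74b8_gt.CHL

open Filter Set

/-- The finite sets of natural numbers with the union as multiplication. -/
def IdemFS : Type := Finset ℕ

/-- The union of two finite sets. -/
def idemUnion (a b : Finset ℕ) : Finset ℕ := a ∪ b

instance idemSemigroup : Semigroup IdemFS where
  mul a b := idemUnion a b
  mul_assoc a b c := Finset.union_assoc (α := ℕ) a b c

attribute [local instance] Ultrafilter.semigroup

/-- An ultrafilter of finite sets, idempotent for unions, which concentrates on nonempty sets with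
large elements. -/
theorem exists_idem : ∃ p : Ultrafilter (Finset ℕ),
    (∀ n : ℕ, ∀ᶠ b in (p : Filter (Finset ℕ)), b.Nonempty ∧ ∀ i ∈ b, n ≤ i) ∧
    ∀ A : Set (Finset ℕ), (∀ᶠ b in (p : Filter (Finset ℕ)), b ∈ A) ↔
      ∀ᶠ b in (p : Filter (Finset ℕ)), ∀ᶠ b' in (p : Filter (Finset ℕ)), b ∪ b' ∈ A := by
  let L : ℕ → Set IdemFS := fun n =>
    {b | Finset.Nonempty (α := ℕ) b ∧ ∀ i : ℕ, Membership.mem (γ := Finset ℕ) b i → n ≤ i}
  let S : Set (Ultrafilter IdemFS) := ⋂ n, {U | ∀ᶠ b in (U : Filter IdemFS), b ∈ L n}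
  have key : ∃ U ∈ S, U * U = U := by
    apply exists_idempotent_in_compact_subsemigroup
    · exact Ultrafilter.continuous_mul_left
    · apply IsCompact.nonempty_iInter_of_sequence_nonempty_isCompact_isClosed
      · intro n U hU
        have hU' : ∀ᶠ b in (U : Filter IdemFS), b ∈ L (n + 1) := hU
        have : ∀ᶠ b in (U : Filter IdemFS), b ∈ L n := by
          filter_upwards [hU'] with b hb
          exact ⟨hb.1, fun i hi => (Nat.le_succ n).trans (hb.2 i hi)⟩
        exact this
      · intro n
        refine ⟨pure (show IdemFS from ({n} : Finset ℕ)), ?_⟩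
        refine mem_pure.mpr ⟨Finset.singleton_nonempty n, ?_⟩
        intro i hi
        have : i = n := Finset.mem_singleton.mp hi
        omega
      · exact (ultrafilter_isClosed_basic _).isCompact
      · intro n
        apply ultrafilter_isClosed_basic
    · exact IsClosed.isCompact (isClosed_iInter fun i => ultrafilter_isClosed_basic _)
    · intro U hU V hV
      rw [Set.mem_iInter] at *
      intro n
      have hU' : ∀ᶠ b in (U : Filter IdemFS), b ∈ L n := hU n
      have hV' : ∀ᶠ b in (V : Filter IdemFS), b ∈ L n := hV n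
      have : ∀ᶠ b in (U : Filter IdemFS), ∀ᶠ b' in (V : Filter IdemFS), b * b' ∈ L n := by
        filter_upwards [hU'] with b hb
        filter_upwards [hV'] with b' hb'
        refine ⟨?_, ?_⟩
        · obtain ⟨i, hi⟩ := hb.1
          exact ⟨i, Finset.mem_union_left _ hi⟩
        · intro i hi
          rcases Finset.mem_union.mp hi with h | h
          · exact hb.2 i h
          · exact hb'.2 i h
      exact this
  obtain ⟨p, hpS, hp⟩ := key
  rw [Set.mem_iInter] at hpS
  refine ⟨p, fun n => hpS n, fun A => ?_⟩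
  have h1 : (∀ᶠ b in ((p * p : Ultrafilter IdemFS) : Filter IdemFS), b ∈ A) ↔
      ∀ᶠ b in (p : Filter IdemFS), ∀ᶠ b' in (p : Filter IdemFS), b * b' ∈ A := Iff.rfl
  rw [hp] at h1
  exact h1

end Pool.Agent.MP_bc74b8_gt.CHL
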