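import Pool.Agent.Lib.MP_bc74b8_gt.CH.Blk

set_option autoImplicit false

namespace Pool.Agent.MP_bc74b8_gt.CHL

open Filter Set

/-- Lower bounds of countable directed families. -/
theorem exists_lower (F : ℕ → Blk) (h : ∀ n, ∃ d : Blk, ∀ i ≤ n, d.Le (F i)) :
    ∃ d : Blk, ∀ i, d.Le (F i) := by
  choose D hD using h
  have ex : ∀ (j : ℕ) (s : Finset ℕ), ∃ m, (∀ i ≤ j, ∃ S : Finset ℕ, (D j).c m = (F i).fu S) ∧
      ∀ a ∈ s, ∀ b ∈ (D j).c m, a < b := by
    intro j s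
    have h1 : ∀ᶠ m in atTop, ∀ i ∈ Finset.range (j + 1),
        ∃ S : Finset ℕ, (D j).c m = (F i).fu S := by
      rw [Filter.eventually_all_finset]
      intro i hi
      exact hD j i (by simpa using hi)
    obtain ⟨m, h2, h3⟩ := (h1.and (eventually_gt_atTop (s.sup id))).exists
    refine ⟨m, fun i hi => h2 i (by simpa using Nat.lt_succ_of_le hi), fun a ha b hb => ?_⟩
    have h4 : a ≤ s.sup id := Finset.le_sup (f := id) ha
    have h5 := (D j).index_le hb
    omega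
  choose g hg1 hg2 using ex
  let blk : ℕ → Finset ℕ := fun n =>
    Nat.rec ((D 0).c (g 0 ∅)) (fun j s => (D (j + 1)).c (g (j + 1) s)) n
  have hb0 : blk 0 = (D 0).c (g 0 ∅) := rfl
  have hbs : ∀ j, blk (j + 1) = (D (j + 1)).c (g (j + 1) (blk j)) := fun j => rfl
  have hbe : ∀ j, ∃ s, blk j = (D j).c (g j s) := by
    intro j
    cases j with
    | zero => exact ⟨∅, hb0⟩
    | succ j => exact ⟨blk j, hbs j⟩
  refine ⟨⟨blk, ?_, ?_⟩, ?_⟩
  · intro j
    obtain ⟨s, hs⟩ := hbe j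
    rw [hs]
    exact (D j).ne _
  · intro j a ha b hb
    rw [hbs j] at hb
    exact hg2 (j + 1) (blk j) a ha b hb
  · intro i
    refine eventually_atTop.mpr ⟨i, fun j hj => ?_⟩
    obtain ⟨s, hs⟩ := hbe j
    obtain ⟨S, hS⟩ := hg1 j s i hj
    exact ⟨S, hs.trans hS⟩

/-- The subsequence of the blocks with indices in an infinite set. -/
theorem lower_subseq (d : Blk) {I : Set ℕ} (hI : I.Infinite) :
    ∃ e : Blk, e.Le d ∧ e.un ⊆ d.sub I ∧ ∀ i, ∃ j ∈ I, e.mn i = d.mn j := by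
  have hmem : ∀ n, Nat.nth (· ∈ I) n ∈ I := fun n => Nat.nth_mem_of_infinite hI n
  have hmono : StrictMono (Nat.nth (· ∈ I)) := Nat.nth_strictMono hI
  refine ⟨⟨fun n => d.c (Nat.nth (· ∈ I) n), fun n => d.ne _, ?_⟩, ?_, ?_, ?_⟩
  · intro i a ha b hb
    exact d.lt_of_lt (hmono (Nat.lt_succ_self i)) ha hb
  · exact Eventually.of_forall fun i => ⟨{Nat.nth (· ∈ I) i}, by simp [Blk.fu]⟩
  · rintro a ⟨i, hi⟩
    exact ⟨_, hmem i, hi⟩
  · intro i
    exact ⟨_, hmem i, rfl⟩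

/-- An infinite subset leaving infinitely many elements of a given infinite set. -/
theorem lower_split {I B : Set ℕ} (hI : I.Infinite) (hB : B.Infinite) :
    ∃ I' ⊆ I, I'.Infinite ∧ (B \ I').Infinite := by
  by_cases h : (B \ I).Infinite
  · exact ⟨I, subset_rfl, hI, h⟩
  rw [Set.not_infinite] at h
  have h1 : (B ∩ I).Infinite := by
    intro hf
    apply hB
    have : B = (B ∩ I) ∪ (B \ I) := (Set.inter_union_sdiff B I).symm
    rw [this]
    exact hf.union h
  have hmem : ∀ n, Nat.nth (· ∈ B ∩ I) n ∈ B ∩ I := fun n => Nat.nth_mem_of_infinite h1 n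
  have hmono : StrictMono (Nat.nth (· ∈ B ∩ I)) := Nat.nth_strictMono h1
  refine ⟨Set.range fun n => Nat.nth (· ∈ B ∩ I) (2 * n), ?_, ?_, ?_⟩
  · rintro _ ⟨n, rfl⟩
    exact (hmem _).2
  · apply Set.infinite_range_of_injective
    intro a b hab
    have := hmono.injective hab
    omega
  · have h2 : (Set.range fun n => Nat.nth (· ∈ B ∩ I) (2 * n + 1)).Infinite := by
      apply Set.infinite_range_of_injective
      intro a b hab
      have := hmono.injective hab
      omega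
    refine h2.mono ?_
    rintro _ ⟨n, rfl⟩
    refine ⟨(hmem _).1, ?_⟩
    rintro ⟨k, hk⟩
    have := hmono.injective hk
    omega

/-- Thinning out a block sequence. -/
theorem exists_thin (d : Blk) (A : Set ℕ) : ∃ e : Blk, e.Le d ∧
    (A.Infinite → (A \ e.un).Infinite) ∧
    ((∀ i, e.mn i ∈ A) ∨ ∀ i, e.mn i ∉ A) := by
  -- an infinite set of indices with the same behaviour of the minima
  have h1 : ∃ I : Set ℕ, I.Infinite ∧ ((∀ i ∈ I, d.mn i ∈ A) ∨ ∀ i ∈ I, d.mn i ∉ A) := by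
    by_cases h : {i | d.mn i ∈ A}.Infinite
    · exact ⟨_, h, Or.inl fun i hi => hi⟩
    · refine ⟨{i | d.mn i ∈ A}ᶜ, ?_, Or.inr fun i hi => hi⟩
      rw [Set.not_infinite] at h
      exact h.infinite_compl
  obtain ⟨I, hI, hIA⟩ := h1
  -- the thinned set of indices
  have h2 : ∃ I' ⊆ I, I'.Infinite ∧ (A.Infinite → (A \ d.sub I').Infinite) := by
    by_cases hB : {j | ∃ a ∈ d.c j, a ∈ A}.Infinite
    · obtain ⟨I', hI'I, hI', hBI⟩ := lower_split hI hB
      refine ⟨I', hI'I, hI', fun _ => ?_⟩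
      have h3 : ∀ j, ∃ a, j ∈ {j | ∃ a ∈ d.c j, a ∈ A} → a ∈ d.c j ∧ a ∈ A := by
        intro j
        by_cases hj : ∃ a ∈ d.c j, a ∈ A
        · obtain ⟨a, ha⟩ := hj
          exact ⟨a, fun _ => ha⟩
        · exact ⟨0, fun h => absurd h hj⟩
      choose f hf using h3
      refine (hBI.image (f := f) ?_).mono ?_
      · intro i hi j hj hij
        have h4 := (hf i hi.1).1
        have h5 := (hf j hj.1).1
        rw [hij] at h4
        exact d.index_unique h4 h5
      · rintro _ ⟨j, hj, rfl⟩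
        have h4 := hf j hj.1
        exact ⟨h4.2, fun h5 => hj.2 ((d.mem_sub_iff h4.1).mp h5)⟩
    · rw [Set.not_infinite] at hB
      refine ⟨I, subset_rfl, hI, fun hA hfin => hA ?_⟩
      have h3 : (d.sub {j | ∃ a ∈ d.c j, a ∈ A}).Finite := d.sub_finite.mpr hB
      refine (hfin.union h3).subset ?_
      intro a ha
      by_cases h4 : a ∈ d.sub I
      · obtain ⟨j, _, hj⟩ := h4
        exact Or.inr ⟨j, ⟨a, hj, ha⟩, hj⟩
      · exact Or.inl ⟨ha, h4⟩
  obtain ⟨I', hI'I, hI', hAI⟩ := h2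
  obtain ⟨e, he1, he2, he3⟩ := lower_subseq d hI'
  refine ⟨e, he1, fun hA => (hAI hA).mono fun a ha => ⟨ha.1, fun h => ha.2 (he2 h)⟩, ?_⟩
  rcases hIA with h | h
  · left
    intro i
    obtain ⟨j, hj, hij⟩ := he3 i
    rw [hij]
    exact h j (hI'I hj)
  · right
    intro i
    obtain ⟨j, hj, hij⟩ := he3 i
    rw [hij]
    exact h j (hI'I hj)

end Pool.Agent.MP_bc74b8_gt.CHL
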