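import Pool.Agent.Lib.MP_bc74b8_gt.CH.Blk
import Pool.Agent.Lib.MP_bc74b8_gt.OmegaTau
import Pool.Agent.Lib.MP_bc74b8_gt.Space
import Pool.Agent.Lib.MP_bc74b8_gt.TauTau

set_option autoImplicit false

namespace Pool.Agent.MP_bc74b8_gt.CHL

open Filter Set Topology

/-- finite sets are contained in infinitely many members of an omega-cover -/
lemma transfer_omega_large {Y : Type*} [TopologicalSpace Y] {V : Set (Set Y)}
    (hV : IsOmegaCover V) (F : Finset Y) : {u ∈ V | (↑F : Set Y) ⊆ u}.Infinite := by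
  classical
  intro hfin
  have : ∀ u : Set Y, ∃ x : Y, u ∈ V → x ∉ u := by
    intro u
    by_cases hu : u ∈ V
    · have : u ≠ Set.univ := fun h => hV.2.1 (h ▸ hu)
      obtain ⟨x, hx⟩ := (ne_univ_iff_exists_notMem u).1 this
      exact ⟨x, fun _ => hx⟩
    · obtain ⟨u0, hu0, -⟩ := hV.2.2 ∅
      have : u0 ≠ Set.univ := fun h => hV.2.1 (h ▸ hu0)
      obtain ⟨y, -⟩ := (ne_univ_iff_exists_notMem u0).1 this
      exact ⟨y, fun h => absurd h hu⟩
  choose x hx using this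
  obtain ⟨u, hu, hFu⟩ := hV.2.2 (F ∪ hfin.toFinset.image x)
  have h1 : (↑F : Set Y) ⊆ u := fun y hy => hFu (by
    rw [Finset.mem_coe, Finset.mem_union]; exact Or.inl hy)
  have : x u ∈ u := hFu (by
    rw [Finset.mem_coe, Finset.mem_union]
    exact Or.inr (Finset.mem_image_of_mem _ (hfin.mem_toFinset.2 ⟨hu, h1⟩)))
  exact hx u hu this

open Classical in
/-- the indicator of a set of naturals -/
noncomputable def transferInd (x : Set ℕ) : ℕ → Bool := fun n => decide (n ∈ x)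

lemma transferInd_apply (x : Set ℕ) (n : ℕ) : transferInd x n = true ↔ n ∈ x := by
  simp [transferInd]

lemma transferInd_inj : Function.Injective transferInd := by
  intro x y h
  ext n
  rw [← transferInd_apply, ← transferInd_apply, h]

/-- open sets of the Cantor space give open families -/
lemma transfer_opn {V : Set (ℕ → Bool)} (hV : IsOpen V) : Opn {x | transferInd x ∈ V} := by
  intro x hx
  obtain ⟨s, ⟨y, m, rfl⟩, hxs, hsV⟩ :=
    (PiNat.isTopologicalBasis_cylinders (fun _ : ℕ => Bool)).exists_subset_of_mem_open hx hV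
  refine ⟨m, fun z hz => hsV ?_⟩
  rw [PiNat.mem_cylinder_iff] at hxs ⊢
  intro i hi
  rw [← hxs i hi]
  have := hz i hi
  rw [Bool.eq_iff_iff, transferInd_apply, transferInd_apply]
  exact this

/-- the Cantor space embeds in the real line -/
lemma transfer_embedding : ∃ ι : (ℕ → Bool) → ℝ, IsEmbedding ι := by
  obtain ⟨g, -, hg, hg'⟩ := IsClosed.exists_nat_bool_injection_of_not_countable
    (α := ℝ) (C := Set.univ) isClosed_univ (by
      rw [Set.countable_univ_iff]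
      exact not_countable)
  exact ⟨g, (hg.isClosedEmbedding hg').isEmbedding⟩

/-- a countable infinite omega-subcover -/
lemma transfer_countable {Y : Type*} [TopologicalSpace Y] [SecondCountableTopology Y]
    {𝒰 : Set (Set Y)} (h𝒰 : IsOmegaCover 𝒰) :
    ∃ 𝒱 ⊆ 𝒰, 𝒱.Countable ∧ 𝒱.Infinite ∧ IsOmegaCover 𝒱 := by
  classical
  obtain ⟨B, hBc, -, hB⟩ := TopologicalSpace.exists_countable_basis Y
  let 𝒞 : Set (Finset (Set Y)) := {s | (↑s : Set (Set Y)) ⊆ B ∧ ∃ u ∈ 𝒰, (⋃₀ ↑s : Set Y) ⊆ u}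
  have h𝒞c : 𝒞.Countable := by
    have h1 := Set.countable_ofPred_finite_subset hBc
    have h2 : MapsTo (fun E : Finset (Set Y) => (↑E : Set (Set Y)))
        {E : Finset (Set Y) | (↑E : Set (Set Y)) ⊆ B}
        {t | t.Finite ∧ t ⊆ B} := fun E hE => ⟨Finset.finite_toSet E, hE⟩
    exact (h2.countable_of_injOn (Finset.coe_injective.injOn) h1).mono (fun s hs => hs.1)
  have hch : ∀ s : Finset (Set Y), ∃ u : Set Y, s ∈ 𝒞 → u ∈ 𝒰 ∧ (⋃₀ ↑s : Set Y) ⊆ u := by
    intro s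
    by_cases hs : s ∈ 𝒞
    · obtain ⟨-, u, hu, hsu⟩ := hs
      exact ⟨u, fun _ => ⟨hu, hsu⟩⟩
    · exact ⟨∅, fun h => absurd h hs⟩
  choose φ hφ using hch
  have h𝒱𝒰 : φ '' 𝒞 ⊆ 𝒰 := by
    rintro _ ⟨s, hs, rfl⟩; exact (hφ s hs).1
  have h𝒱ω : ∀ F : Finset Y, ∃ u ∈ φ '' 𝒞, (↑F : Set Y) ⊆ u := by
    intro F
    obtain ⟨u, hu, hFu⟩ := h𝒰.2.2 F
    have : ∀ y : Y, ∃ v : Set Y, y ∈ F → v ∈ B ∧ y ∈ v ∧ v ⊆ u := by
      intro y
      by_cases hy : y ∈ F
      · obtain ⟨v, hv⟩ := hB.exists_subset_of_mem_open (hFu hy) (h𝒰.1 u hu)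
        exact ⟨v, fun _ => hv⟩
      · exact ⟨∅, fun h => absurd h hy⟩
    choose v hv using this
    have hs : F.image v ∈ 𝒞 := by
      refine ⟨?_, u, hu, ?_⟩
      · intro w hw
        obtain ⟨y, hy, rfl⟩ := Finset.mem_image.1 (Finset.mem_coe.1 hw)
        exact (hv y hy).1
      · rintro x ⟨w, hw, hxw⟩
        obtain ⟨y, hy, rfl⟩ := Finset.mem_image.1 (Finset.mem_coe.1 hw)
        exact (hv y hy).2.2 hxw
    refine ⟨φ (F.image v), ⟨_, hs, rfl⟩, ?_⟩
    intro y hy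
    exact (hφ _ hs).2 ⟨v y, Finset.mem_coe.2 (Finset.mem_image_of_mem _ hy), (hv y hy).2.1⟩
  have hω : IsOmegaCover (φ '' 𝒞) :=
    ⟨fun u hu => h𝒰.1 u (h𝒱𝒰 hu), fun hu => h𝒰.2.1 (h𝒱𝒰 hu), h𝒱ω⟩
  exact ⟨φ '' 𝒞, h𝒱𝒰, h𝒞c.image φ,
    (transfer_omega_large hω ∅).mono (fun u hu => hu.1), hω⟩

/-- finite intersections of members of `X` are infinite -/
lemma transfer_inter (X : Set (Set ℕ)) (h0 : X.Nonempty)
    (h2 : ∀ x ∈ X, x.Infinite) (h3 : ∀ x ∈ X, ∀ y ∈ X, (x \ y).Finite ∨ (y \ x).Finite)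
    (F : Finset (Set ℕ)) (hF : (↑F : Set (Set ℕ)) ⊆ X) : {n | ∀ y ∈ F, n ∈ y}.Infinite := by
  classical
  have key : ∀ F : Finset (Set ℕ), (↑F : Set (Set ℕ)) ⊆ X →
      ∃ y ∈ X, ∀ x ∈ F, (y \ x).Finite := by
    intro F
    induction F using Finset.induction_on with
    | empty =>
      intro _
      obtain ⟨y, hy⟩ := h0
      exact ⟨y, hy, by simp⟩
    | insert a F _ ih =>
      intro hF
      have ha : a ∈ X := hF (by simp)
      obtain ⟨y, hyX, hy⟩ := ih (fun x hx => hF (by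
        rw [Finset.coe_insert]; exact Or.inr hx))
      rcases h3 y hyX a ha with h | h
      · refine ⟨y, hyX, fun x hx => ?_⟩
        rcases Finset.mem_insert.1 hx with rfl | hx
        · exact h
        · exact hy x hx
      · refine ⟨a, ha, fun x hx => ?_⟩
        rcases Finset.mem_insert.1 hx with rfl | hx
        · simp
        · refine (h.union (hy x hx)).subset ?_
          rintro n ⟨hn, hn'⟩
          by_cases hny : n ∈ y
          · exact Or.inr ⟨hny, hn'⟩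
          · exact Or.inl ⟨hn, hny⟩
  obtain ⟨y, hyX, hy⟩ := key F hF
  have hfin : (⋃ x ∈ F, y \ x).Finite :=
    Set.Finite.biUnion (Finset.finite_toSet F) (fun x hx => hy x hx)
  refine ((h2 y hyX).sdiff hfin).mono ?_
  rintro n ⟨hn, hn'⟩ x hx
  by_contra hnx
  exact hn' (mem_biUnion (Finset.mem_coe.1 hx) ⟨hn, hnx⟩)

/-- Transfer of the core to sets of reals. -/
theorem transfer (X : Set (Set ℕ)) (h0 : X.Nonempty) (h1 : ∀ x ∈ X, ∀ y, AEq y x → y ∈ X)
    (h2 : ∀ x ∈ X, x.Infinite) (h3 : ∀ x ∈ X, ∀ y ∈ X, (x \ y).Finite ∨ (y \ x).Finite)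
    (h4 : ∀ A : Set ℕ, A.Infinite → ∃ x ∈ X, (A \ x).Infinite)
    (h5 : ∀ U : ℕ → Set (Set ℕ), (∀ n, Opn (U n)) →
      (∀ F : Finset (Set ℕ), ↑F ⊆ X → {n | ∀ y ∈ F, y ∈ U n}.Infinite) →
      ∃ k l : ℕ → ℕ, Function.Injective k ∧ Function.Injective l ∧ (∀ i j, k i ≠ l j) ∧
        (∀ F : Finset (Set ℕ), ↑F ⊆ X → {j | ∀ y ∈ F, y ∈ U (k j)}.Infinite) ∧
        (∀ F : Finset (Set ℕ), ↑F ⊆ X → {j | ∀ y ∈ F, y ∈ U (l j)}.Infinite) ∧
        ∀ x ∈ X, ∀ y ∈ X, {j | x ∈ U (k j) ∧ y ∉ U (k j)}.Finite ∨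
          {j | y ∈ U (k j) ∧ x ∉ U (k j)}.Finite) :
    ∃ Z : Set ℝ, SplitOmegaTau Z ∧ ¬ SplitOmegaGamma Z := by
  classical
  obtain ⟨ι, hι⟩ := transfer_embedding
  let Z : Set ℝ := (fun x => ι (transferInd x)) '' X
  have hex : ∀ z : Z, ∃ x ∈ X, ι (transferInd x) = z := fun z => z.2
  choose xs hxsX hxs using hex
  have hsurj : ∀ x ∈ X, ∃ z : Z, xs z = x := by
    intro x hx
    let z : Z := ⟨ι (transferInd x), x, hx, rfl⟩
    refine ⟨z, transferInd_inj (hι.injective ?_)⟩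
    exact hxs z
  let jj : Z → (ℕ → Bool) := fun z => transferInd (xs z)
  have hjj : IsInducing jj := by
    have h : IsInducing (ι ∘ jj) := by
      have : ι ∘ jj = Subtype.val := by
        funext z; exact hxs z
      rw [this]; exact IsInducing.subtypeVal
    exact hι.isInducing.of_comp_iff.1 h
  refine ⟨Z, ?_, ?_⟩
  · -- Split(Omega, Tau)
    intro 𝒰 h𝒰
    obtain ⟨𝒱, h𝒱𝒰, h𝒱c, h𝒱i, h𝒱ω⟩ := transfer_countable h𝒰
    have := h𝒱i.to_subtype
    have := h𝒱c.to_subtype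
    obtain ⟨e⟩ := nonempty_equiv_of_countable (α := ℕ) (β := 𝒱)
    have hopen : ∀ n : ℕ, ∃ O : Set (ℕ → Bool), IsOpen O ∧ jj ⁻¹' O = (e n : Set Z) := fun n =>
      hjj.isOpen_iff.1 (h𝒰.1 _ (h𝒱𝒰 (e n).2))
    choose V hVo hV using hopen
    let U : ℕ → Set (Set ℕ) := fun n => {x | transferInd x ∈ V n}
    have hUe : ∀ (z : Z) (n : ℕ), xs z ∈ U n ↔ z ∈ (e n : Set Z) := by
      intro z n
      rw [← hV n]
      rfl
    have hinje : Function.Injective (fun n => (e n : Set Z)) :=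
      Subtype.val_injective.comp e.injective
    have hlift : ∀ F : Finset (Set ℕ), (↑F : Set (Set ℕ)) ⊆ X → ∃ G : Finset Z, G.image xs = F := by
      intro F hF
      have hr : range xs = X := by
        ext x
        constructor
        · rintro ⟨z, rfl⟩; exact hxsX z
        · exact fun hx => hsurj x hx
      have := Finset.subset_set_image_iff (s := (Set.univ : Set Z)) (t := F) (f := xs)
      rw [image_univ, hr] at this
      obtain ⟨G, -, hG⟩ := this.1 hF
      exact ⟨G, hG⟩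
    obtain ⟨k, l, hk, hl, hkl, hkω, hlω, hklin⟩ := h5 U (fun n => transfer_opn (hVo n)) (by
      intro F hF
      obtain ⟨G, rfl⟩ := hlift F hF
      have hinf := transfer_omega_large h𝒱ω G
      intro hfin
      apply hinf
      refine (hfin.image (fun n => (e n : Set Z))).subset ?_
      rintro u ⟨hu, hGu⟩
      refine ⟨e.symm ⟨u, hu⟩, ?_, by simp⟩
      intro y hy
      obtain ⟨z, hz, rfl⟩ := Finset.mem_image.1 hy
      rw [hUe]
      simpa using hGu hz)
    obtain ⟨k', l', hk', -, -, hk'ω, -, hk'lin⟩ := h5 (fun j => U (l j))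
      (fun n => transfer_opn (hVo (l n))) hlω
    have htau : ∀ q : ℕ → ℕ, Function.Injective q →
        (∀ F : Finset (Set ℕ), ↑F ⊆ X → {j | ∀ y ∈ F, y ∈ U (q j)}.Infinite) →
        (∀ x ∈ X, ∀ y ∈ X, {j | x ∈ U (q j) ∧ y ∉ U (q j)}.Finite ∨
          {j | y ∈ U (q j) ∧ x ∉ U (q j)}.Finite) →
        IsTauCover (range fun j => (e (q j) : Set Z)) := by
      intro q hq hqω hqlin
      have hinj : Function.Injective fun j => (e (q j) : Set Z) := hinje.comp hq
      refine ⟨?_, ?_, ?_, ?_⟩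
      · rintro _ ⟨j, rfl⟩
        exact h𝒰.1 _ (h𝒱𝒰 (e (q j)).2)
      · rintro ⟨j, hj⟩
        exact h𝒰.2.1 (hj ▸ h𝒱𝒰 (e (q j)).2)
      · intro z
        have h6 := hqω {xs z} (by
          rw [Finset.coe_singleton, singleton_subset_iff]; exact hxsX z)
        refine ((h6.image (f := fun j => (e (q j) : Set Z)) hinj.injOn)).mono ?_
        rintro _ ⟨j, hj, rfl⟩
        refine ⟨⟨j, rfl⟩, ?_⟩
        exact (hUe z _).1 (hj (xs z) (by simp))
      · intro z w
        have key : ∀ z w : Z, {j | xs z ∈ U (q j) ∧ xs w ∉ U (q j)}.Finite →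
            {u ∈ range fun j => (e (q j) : Set Z) | z ∈ u ∧ w ∉ u}.Finite := by
          intro z w h
          refine (h.image (fun j => (e (q j) : Set Z))).subset ?_
          rintro _ ⟨⟨j, rfl⟩, hz, hw⟩
          exact ⟨j, ⟨(hUe z _).2 hz, fun hcon => hw ((hUe w _).1 hcon)⟩, rfl⟩
        rcases hqlin _ (hxsX z) _ (hxsX w) with h | h
        · exact Or.inl (key z w h)
        · exact Or.inr (key w z h)
    have hV1 := htau k hk hkω hklin
    have hV2 := htau (l ∘ k') (hl.comp hk') hk'ω hk'lin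
    have hsub : ∀ q : ℕ → ℕ, (range fun j => (e (q j) : Set Z)) ⊆ 𝒰 := by
      rintro q _ ⟨j, rfl⟩; exact h𝒱𝒰 (e (q j)).2
    refine ⟨range fun j => (e (k j) : Set Z), 𝒰 \ range fun j => (e (k j) : Set Z), ?_,
      disjoint_sdiff_right, ⟨_, Subset.rfl, hV1⟩, ⟨_, ?_, hV2⟩⟩
    · rw [union_sdiff_self, union_eq_self_of_subset_left (hsub k)]
    · rintro _ ⟨j, rfl⟩
      refine ⟨h𝒱𝒰 (e _).2, ?_⟩
      rintro ⟨i, hi⟩
      exact hkl _ _ (hinje hi)
  · -- not Split(Omega, Gamma)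
    intro hsplit
    let O : ℕ → Set Z := fun n => {z | n ∈ xs z}
    have haeq : ∀ x ∈ X, ∀ n m : ℕ, n ≠ m → ∃ y ∈ X, n ∈ y ∧ m ∉ y := by
      intro x hx n m hnm
      refine ⟨(x ∪ {n}) \ {m}, h1 x hx _ ⟨?_, ?_⟩, ?_, ?_⟩
      · refine (finite_singleton n).subset ?_
        rintro i ⟨⟨h6 | h6, -⟩, h7⟩
        · exact absurd h6 h7
        · exact h6
      · refine (finite_singleton m).subset ?_
        rintro i ⟨h6, h7⟩
        by_contra hcon
        exact h7 ⟨Or.inl h6, hcon⟩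
      · exact ⟨Or.inr rfl, hnm⟩
      · rintro ⟨-, h6⟩
        exact h6 rfl
    have hOopen : ∀ n, IsOpen (O n) := by
      intro n
      have hcn : Continuous fun c : ℕ → Bool => c n := continuous_apply n
      have h6 : IsOpen {c : ℕ → Bool | c n = true} :=
        (isOpen_discrete ({true} : Set Bool)).preimage hcn
      have h7 : O n = jj ⁻¹' {c : ℕ → Bool | c n = true} := by
        ext z
        exact (transferInd_apply (xs z) n).symm
      rw [h7]
      exact h6.preimage hjj.continuous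
    have hOinj : Function.Injective O := by
      intro n m hnm
      by_contra hne
      obtain ⟨x, hx⟩ := h0
      obtain ⟨y, hy, hn, hm⟩ := haeq x hx n m hne
      obtain ⟨z, rfl⟩ := hsurj y hy
      have : z ∈ O n := hn
      rw [hnm] at this
      exact hm this
    have hOmega : IsOmegaCover (range O) := by
      refine ⟨?_, ?_, ?_⟩
      · rintro _ ⟨n, rfl⟩; exact hOopen n
      · rintro ⟨n, hn⟩
        obtain ⟨x, hx⟩ := h0
        obtain ⟨y, hy, -, hm⟩ := haeq x hx (n + 1) n (by omega)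
        obtain ⟨z, rfl⟩ := hsurj y hy
        have : z ∈ O n := by rw [hn]; exact mem_univ z
        exact hm this
      · intro F
        obtain ⟨n, hn⟩ := (transfer_inter X h0 h2 h3 (F.image xs) (by
          rw [Finset.coe_image]
          rintro _ ⟨z, -, rfl⟩
          exact hxsX z)).nonempty
        exact ⟨O n, ⟨n, rfl⟩, fun z hz => hn (xs z) (Finset.mem_image_of_mem _ hz)⟩
    obtain ⟨V, W, hVW, -, ⟨V', hV', hV''⟩, -⟩ := hsplit _ hOmega
    have hV'r : V' ⊆ range O := hV'.trans (hVW ▸ subset_union_left)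
    have hA : {n | O n ∈ V'}.Infinite := by
      intro hfin
      apply hV''.2.2.1
      refine (hfin.image O).subset ?_
      intro u hu
      obtain ⟨n, rfl⟩ := hV'r hu
      exact ⟨n, hu, rfl⟩
    obtain ⟨x, hx, hinf⟩ := h4 _ hA
    obtain ⟨z, rfl⟩ := hsurj x hx
    apply hinf
    refine Set.Finite.of_finite_image (f := O) ((hV''.2.2.2 z).subset ?_) hOinj.injOn
    rintro _ ⟨n, ⟨hn, hn'⟩, rfl⟩
    exact ⟨hn, hn'⟩

end Pool.Agent.MP_bc74b8_gt.CHL
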