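import Pool.Agent.Lib.MP_bc74b8_gt.CH.Core
import Pool.Agent.Lib.MP_bc74b8_gt.CH.Transfer
import Pool.Agent.Lib.MP_bc74b8_gt.Measure
import Pool.Agent.Lib.MP_bc74b8_gt.Powers

set_option autoImplicit false

namespace Pool.Agent.MP_bc74b8_gt.CHL

open Filter Set

/-- Under the continuum hypothesis none of the three properties is preserved. -/
theorem none_preserved (hCH : Cardinal.continuum.{0} = Cardinal.aleph 1) :
    (∃ X : Set ℝ, SplitOmegaOmega X ∧ ∀ n : ℕ, 2 ≤ n → ¬ SplitOmegaOmega (Fin n → X)) ∧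
    (∃ X : Set ℝ, SplitOmegaTau X ∧ ∀ n : ℕ, 2 ≤ n → ¬ SplitOmegaTau (Fin n → X)) ∧
    (∃ X : Set ℝ, SplitTauTau X ∧ ∀ n : ℕ, 2 ≤ n → ¬ SplitTauTau (Fin n → X)) := by
  obtain ⟨X, h0, h1, h2, h3, h4, h5, p, hp, hlin⟩ := core hCH
  obtain ⟨Z, hZ1, hZ2⟩ := transfer X h0 h1 h2 h3 h4 h5
  exact ⟨splitOmegaOmega_not_preserved,
    ⟨Z, hZ1, fun n hn h => hZ2 ((splitOmegaTau_pi_iff Z n hn).1 h)⟩,
    tauTau_not_preserved hp hlin⟩

end Pool.Agent.MP_bc74b8_gt.CHL
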