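import Pool.Agent.Lib.MP_bc74b8_gt.CH.Idem

set_option autoImplicit false

/-!
The Ramsey theorem for open families of sets which is used in the construction.
-/

namespace Pool.Agent.MP_bc74b8_gt.CHL

open Filter Set

/-- `w` can be steered into `O` by adding blocks from members of the ultrafilter. -/
inductive Good (c : Blk) (p : Ultrafilter (Finset ℕ)) (O : Set (Set ℕ)) : Finset ℕ → Prop
  | base (w : Finset ℕ)
      (h : ∀ y : Set ℕ, (↑w : Set ℕ) ⊆ y → (∀ i ∈ y, i ∉ w → ∀ a ∈ w, a < i) → y ∈ O) : Good c p O w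
  | step (w : Finset ℕ) (B : Set (Finset ℕ)) (hB : B ∈ p)
      (h : ∀ b ∈ B, Good c p O (w ∪ c.fu b)) : Good c p O w

/-- the elements of `y` below `m` -/
noncomputable def trunc (y : Set ℕ) (m : ℕ) : Finset ℕ := by
  classical exact (Finset.range m).filter fun i => i ∈ y

lemma mem_trunc {y : Set ℕ} {m i : ℕ} : i ∈ trunc y m ↔ i < m ∧ i ∈ y := by
  simp [trunc]

/-- the position after block `j` -/
noncomputable def pos (c G : Blk) (y : Set ℕ) (j : ℕ) : Finset ℕ := trunc y ((c.comp G).mx j + 1)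

/-- from `a` on, `y` consists of the blocks with indices in `J` -/
def Follows (c G : Blk) (J y : Set ℕ) (a : ℕ) : Prop :=
  ∀ j ≥ a, (j + 1 ∈ J → pos c G y (j + 1) = pos c G y j ∪ c.fu (G.c (j + 1))) ∧
    (j + 1 ∉ J → pos c G y (j + 1) = pos c G y j)

section

variable {c G : Blk} {p : Ultrafilter (Finset ℕ)} {O : Set (Set ℕ)} {J y : Set ℕ} {a : ℕ}

lemma Follows.mono {b : ℕ} (h : Follows c G J y a) (hab : a ≤ b) : Follows c G J y b :=
  fun j hj => h j (hab.trans hj)

lemma pos_mono {i j : ℕ} (hij : i ≤ j) : pos c G y i ⊆ pos c G y j := by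
  intro x hx
  rw [pos, mem_trunc] at hx ⊢
  have := (c.comp G).mx_strictMono.monotone hij
  exact ⟨by omega, hx.2⟩

lemma Follows.const (h : Follows c G J y a) {b : ℕ} (hab : a ≤ b)
    (hJ : ∀ j, a ≤ j → j < b → j + 1 ∉ J) : pos c G y b = pos c G y a := by
  induction b with
  | zero =>
    have : a = 0 := by omega
    rw [this]
  | succ b ih =>
    rcases Nat.lt_or_ge b a with hlt | hge
    · have : a = b + 1 := by omega
      rw [this]
    · rw [(h b hge).2 (hJ b hge (Nat.lt_succ_self b)), ih hge fun j h1 h2 => hJ j h1 (by omega)]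

lemma exists_next (hJ : J.Infinite) (a : ℕ) : ∃ j, a ≤ j ∧ j + 1 ∈ J ∧ ∀ i, a ≤ i → i < j → i + 1 ∉ J := by
  classical
  have hex : ∃ j, a ≤ j ∧ j + 1 ∈ J := by
    obtain ⟨l, hl, hal⟩ := hJ.exists_gt a
    exact ⟨l - 1, by omega, by rwa [show l - 1 + 1 = l by omega]⟩
  refine ⟨Nat.find hex, (Nat.find_spec hex).1, (Nat.find_spec hex).2, fun i hi hlt h => ?_⟩
  exact Nat.find_min hex hlt ⟨hi, h⟩

lemma finite_fu_subset (c : Blk) (v : Finset ℕ) : {b : Finset ℕ | c.fu b ⊆ v}.Finite := by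
  refine (Finset.finite_toSet (Finset.range (v.sup id + 1)).powerset).subset ?_
  intro b hb
  rw [Finset.mem_coe, Finset.mem_powerset]
  intro i hi
  have h1 : c.mn i ∈ v := hb (c.mem_fu.mpr ⟨i, hi, c.mn_mem i⟩)
  have h2 : c.mn i ≤ v.sup id := Finset.le_sup (f := id) h1
  have h3 := c.le_mn i
  rw [Finset.mem_range]
  omega

/-- Strategies for good positions. -/
lemma Good.strategy {w : Finset ℕ} (h : Good c p O w) :
    ∃ B : Finset ℕ → Set (Finset ℕ), (∀ v, B v ∈ p) ∧
      ∀ (G : Blk) (J y : Set ℕ) (a : ℕ), J.Infinite → Follows c G J y a → pos c G y a = w →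
        (∀ j ≥ a, j + 1 ∈ J → G.c (j + 1) ∈ B (pos c G y j)) → y ∈ O := by
  induction h with
  | base w h =>
    refine ⟨fun _ => univ, fun _ => univ_mem, fun G J y a _ _ hw _ => ?_⟩
    apply h
    · intro x hx
      rw [← hw] at hx
      exact (mem_trunc.mp hx).2
    · intro i hi hiw b hb
      rw [← hw] at hiw hb
      rw [pos, mem_trunc] at hiw hb
      by_contra hcon
      exact hiw ⟨by omega, hi⟩
  | step w B hB h ih =>
    choose! BB hBB hBB' using ih
    refine ⟨fun v => {b | (v = w → b ∈ B) ∧ ∀ b' ∈ {b' | c.fu b' ⊆ v}, b' ∈ B → b ∈ BB b' v},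
      fun v => ?_, fun G J y a hJ hF hw hs => ?_⟩
    · refine inter_mem ?_ ?_
      · by_cases hv : v = w
        · exact Filter.mem_of_superset hB (fun b hb _ => hb)
        · exact Filter.mem_of_superset Filter.univ_mem (fun b _ hh => absurd hh hv)
      · refine (eventually_all_finite (finite_fu_subset c v)).mpr fun b' _ => ?_
        by_cases hb' : b' ∈ B
        · simpa [hb'] using hBB b' hb' v
        · simp [hb']
    · obtain ⟨j, haj, hj, hmin⟩ := exists_next hJ a
      have h1 : pos c G y j = w := by rw [hF.const haj hmin, hw]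
      have h2 := hs j haj hj
      rw [h1] at h2
      have h3 : G.c (j + 1) ∈ B := h2.1 rfl
      have h4 : pos c G y (j + 1) = w ∪ c.fu (G.c (j + 1)) := by
        rw [(hF j haj).1 hj, h1]
      refine hBB' _ h3 G J y (j + 1) hJ (hF.mono (by omega)) h4 fun i hi hiJ => ?_
      refine (hs i (by omega) hiJ).2 _ ?_ h3
      refine Finset.Subset.trans ?_ (pos_mono (hi : j + 1 ≤ i))
      rw [h4]
      exact Finset.subset_union_right

/-- From a position which is not good one stays outside. -/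
lemma not_good (hO : Opn O) (hJ : J.Infinite) (hF : Follows c G J y a)
    (hw : ¬ Good c p O (pos c G y a))
    (hs : ∀ j ≥ a, j + 1 ∈ J → ¬ Good c p O (pos c G y j) →
      ¬ Good c p O (pos c G y j ∪ c.fu (G.c (j + 1)))) : y ∉ O := by
  have h1 : ∀ j ≥ a, ¬ Good c p O (pos c G y j) := by
    intro j hj
    induction j, hj using Nat.le_induction with
    | base => exact hw
    | succ j hj ih =>
      by_cases hjJ : j + 1 ∈ J
      · rw [(hF j hj).1 hjJ]
        exact hs j hj hjJ ih
      · rw [(hF j hj).2 hjJ]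
        exact ih
  intro hy
  obtain ⟨m, hm⟩ := hO y hy
  obtain ⟨l, hl, hlm⟩ := hJ.exists_gt (a + m)
  obtain ⟨j, rfl⟩ : ∃ j, l = j + 1 := ⟨l - 1, by omega⟩
  apply h1 (j + 1) (by omega)
  refine Good.base _ fun z hz1 hz2 => hm z fun i hi => ?_
  have h2 : (c.comp G).mx (j + 1) ∈ pos c G y (j + 1) := by
    rw [(hF j (by omega)).1 hl, Finset.mem_union]
    exact Or.inr ((c.comp G).mx_mem (j + 1))
  have h3 : m ≤ (c.comp G).mx (j + 1) := by
    have := (c.comp G).index_le ((c.comp G).mx_mem (j + 1))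
    omega
  constructor
  · intro hiz
    by_contra hiy
    have h4 : i ∉ pos c G y (j + 1) := fun h => hiy (mem_trunc.mp h).2
    have := hz2 i hiz h4 _ h2
    omega
  · intro hiy
    exact hz1 (mem_trunc.mpr ⟨by omega, hiy⟩)

end

/-- least element, as a function on all finite sets -/
noncomputable def mnF (b : Finset ℕ) : ℕ := sInf (↑b : Set ℕ)

lemma mnF_c (G : Blk) (j : ℕ) : mnF (G.c j) = G.mn j := by
  apply le_antisymm
  · exact Nat.sInf_le (G.mn_mem j)
  · exact G.mn_le (Nat.sInf_mem (s := (↑(G.c j) : Set ℕ)) (G.ne j))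

/-- Fusion. -/
lemma fusion (c : Blk) (p : Ultrafilter (Finset ℕ))
    (hp : ∀ n : ℕ, ∀ᶠ b in (p : Filter (Finset ℕ)), b.Nonempty ∧ ∀ i ∈ b, n ≤ i)
    (A : ℕ → Set (Finset ℕ)) (hA : ∀ n, A n ∈ p) :
    ∃ G : Blk, ∀ l, G.c (l + 1) ∈ A ((c.comp G).mx l) := by
  classical
  -- largest element of the union of the blocks
  let M : Finset ℕ → ℕ := fun b => (c.fu b).sup id
  have hch : ∀ b : Finset ℕ, ∃ b' : Finset ℕ, b'.Nonempty ∧ (∀ i ∈ b', b.sup id + 1 ≤ i) ∧
      b' ∈ A (M b) := by
    intro b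
    obtain ⟨b', h1, h2⟩ := ((hp (b.sup id + 1)).and (hA (M b))).exists
    exact ⟨b', h1.1, h1.2, h2⟩
  choose nx h1 h2 h3 using hch
  let g : ℕ → Finset ℕ := fun l => Nat.rec {0} (fun _ b => nx b) l
  have hg : ∀ l, g (l + 1) = nx (g l) := fun l => rfl
  let G : Blk := {
    c := g
    ne := fun i => by
      cases i with
      | zero => exact Finset.singleton_nonempty 0
      | succ i => exact h1 _
    lt := fun i a ha b hb => by
      rw [hg] at hb
      have h4 := h2 _ b hb
      have h5 : a ≤ (g i).sup id := Finset.le_sup (f := id) ha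
      omega }
  refine ⟨G, fun l => ?_⟩
  have h4 : (c.comp G).mx l = M (g l) := by
    apply le_antisymm
    · exact Finset.le_sup (f := id) ((c.comp G).mx_mem l)
    · exact Finset.sup_le fun a ha => (c.comp G).le_mx ha
  rw [h4]
  exact h3 (g l)

/-- The Ramsey theorem which is used. -/
theorem ramsey (c : Blk) (O : ℕ → Set (Set ℕ)) (hO : ∀ n, Opn (O n)) : ∃ G : Blk,
    ∀ (J : Set ℕ) (y : Set ℕ), J.Infinite → AEq y ((c.comp G).sub J) →
      (∀ᶠ j in atTop, j ∉ J → y ∈ O (G.mn j)) ∨ (∀ᶠ j in atTop, j ∉ J → y ∉ O (G.mn j)) := by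
  classical
  obtain ⟨p, hp, hidem⟩ := exists_idem
  let δ : Finset ℕ → Prop := fun w => ∀ᶠ g in (p : Filter (Finset ℕ)), Good c p (O (mnF g)) w
  let δ' : Finset ℕ → Prop := fun w => ∀ᶠ b in (p : Filter (Finset ℕ)), δ (w ∪ c.fu b)
  have hfu : ∀ b b' : Finset ℕ, c.fu (b ∪ b') = c.fu b ∪ c.fu b' := by
    intro b b'
    exact Finset.union_biUnion
  have hδ' : ∀ w, δ' w ↔ ∀ᶠ b in (p : Filter (Finset ℕ)), δ' (w ∪ c.fu b) := by
    intro w
    have := hidem {b | δ (w ∪ c.fu b)}
    simp only [mem_ofPred_eq, hfu] at this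
    simp only [δ', Finset.union_assoc]
    exact this
  have dich : ∀ P : Finset ℕ → Prop, ∀ᶠ b in (p : Filter (Finset ℕ)),
      (P b ↔ ∀ᶠ b in (p : Filter (Finset ℕ)), P b) := by
    intro P
    by_cases h : ∀ᶠ b in (p : Filter (Finset ℕ)), P b
    · filter_upwards [h] with b hb
      exact ⟨fun _ => h, fun _ => hb⟩
    · have h' := Ultrafilter.eventually_not.mpr h
      filter_upwards [h'] with b hb
      exact ⟨fun h1 => absurd h1 hb, fun h1 => absurd h1 h⟩
  have hstr : ∀ (n : ℕ) (w : Finset ℕ), ∃ B : Finset ℕ → Set (Finset ℕ), (∀ v, B v ∈ p) ∧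
      (Good c p (O n) w → ∀ (G : Blk) (J y : Set ℕ) (a : ℕ), J.Infinite → Follows c G J y a →
        pos c G y a = w → (∀ j ≥ a, j + 1 ∈ J → G.c (j + 1) ∈ B (pos c G y j)) → y ∈ O n) := by
    intro n w
    by_cases h : Good c p (O n) w
    · obtain ⟨B, h1, h2⟩ := h.strategy
      exact ⟨B, h1, fun _ => h2⟩
    · exact ⟨fun _ => univ, fun _ => univ_mem, fun h' => absurd h' h⟩
  choose B hB hBs using hstr
  let A : ℕ → Set (Finset ℕ) := fun N => {b | ∀ v ∈ (Finset.range (N + 1)).powerset,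
    (δ (v ∪ c.fu b) ↔ δ' v) ∧ (δ' (v ∪ c.fu b) ↔ δ' v) ∧ (Good c p (O (mnF b)) v ↔ δ v) ∧
    ∀ n ∈ Finset.range (N + 1), (¬ Good c p (O n) v → ¬ Good c p (O n) (v ∪ c.fu b)) ∧
      ∀ w ∈ v.powerset, b ∈ B n w v}
  have hA : ∀ N, A N ∈ p := by
    intro N
    change ∀ᶠ b in (p : Filter (Finset ℕ)), _
    refine (eventually_all_finset _).mpr fun v _ => ?_
    refine (dich fun b => δ (v ∪ c.fu b)).and (((dich fun b => δ' (v ∪ c.fu b)).mono
      fun b hb => hb.trans (hδ' v).symm).and ((dich fun b => Good c p (O (mnF b)) v).and ?_))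
    refine (eventually_all_finset _).mpr fun n _ => ?_
    refine Eventually.and ?_ ((eventually_all_finset _).mpr fun w _ => hB n w v)
    by_cases h : Good c p (O n) v
    · exact Eventually.of_forall fun b h' => absurd h h'
    · have h1 : ¬ ∀ᶠ b in (p : Filter (Finset ℕ)), Good c p (O n) (v ∪ c.fu b) := by
        intro h2
        exact h (Good.step v _ h2 fun b hb => hb)
      exact (Ultrafilter.eventually_not.mpr h1).mono fun b hb _ => hb
  obtain ⟨G, hG⟩ := fusion c p hp A hA
  refine ⟨G, fun J y hJ hy => ?_⟩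
  -- from some point on `y` follows the blocks
  obtain ⟨a, hF⟩ : ∃ a, Follows c G J y a := by
    obtain ⟨N, hN⟩ := (hy.1.union hy.2).bddAbove
    have hN' : ∀ i, N < i → (i ∈ y ↔ i ∈ (c.comp G).sub J) := by
      intro i hi
      by_contra hcon
      have : i ∈ y \ (c.comp G).sub J ∪ (c.comp G).sub J \ y := by
        by_cases h : i ∈ y
        · exact Or.inl ⟨h, fun h' => hcon ⟨fun _ => h', fun _ => h⟩⟩
        · refine Or.inr ⟨?_, h⟩
          by_contra h'
          exact hcon ⟨fun h1 => absurd h1 h, fun h1 => absurd h1 h'⟩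
      have := hN this
      omega
    refine ⟨N, fun j hj => ?_⟩
    have hmx : N ≤ (c.comp G).mx j := by
      have := (c.comp G).index_le ((c.comp G).mx_mem j)
      omega
    have hmx' : (c.comp G).mx j < (c.comp G).mx (j + 1) := (c.comp G).mx_strictMono (Nat.lt_succ_self j)
    -- an element between the ends of the blocks
    have hbt : ∀ i, (c.comp G).mx j < i → i ≤ (c.comp G).mx (j + 1) →
        (i ∈ (c.comp G).sub J ↔ j + 1 ∈ J ∧ i ∈ (c.comp G).c (j + 1)) := by
      intro i h1 h2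
      constructor
      · rintro ⟨l, hl, hil⟩
        have h3 : l = j + 1 := by
          rcases lt_trichotomy l (j + 1) with h | h | h
          · exfalso
            have h4 := (c.comp G).le_mx hil
            have h5 := (c.comp G).mx_strictMono.monotone (show l ≤ j by omega)
            omega
          · exact h
          · exfalso
            have h4 := (c.comp G).lt_of_lt h ((c.comp G).mx_mem (j + 1)) hil
            omega
        subst h3
        exact ⟨hl, hil⟩
      · rintro ⟨h3, h4⟩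
        exact ⟨j + 1, h3, h4⟩
    constructor
    · intro hjJ
      ext i
      rw [pos, pos, Finset.mem_union, mem_trunc, mem_trunc]
      constructor
      · rintro ⟨h1, h2⟩
        by_cases h3 : i < (c.comp G).mx j + 1
        · exact Or.inl ⟨h3, h2⟩
        · right
          exact ((hbt i (by omega) (by omega)).mp ((hN' i (by omega)).mp h2)).2
      · rintro (⟨h1, h2⟩ | h1)
        · exact ⟨by omega, h2⟩
        · have h1' : i ∈ (c.comp G).c (j + 1) := h1
          have h3 := (c.comp G).le_mx h1'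
          have h4 := (c.comp G).lt_of_lt (Nat.lt_succ_self j) ((c.comp G).mx_mem j) h1'
          exact ⟨by omega, (hN' i (by omega)).mpr ⟨j + 1, hjJ, h1'⟩⟩
    · intro hjJ
      ext i
      rw [pos, pos, mem_trunc, mem_trunc]
      constructor
      · rintro ⟨h1, h2⟩
        refine ⟨?_, h2⟩
        by_contra h3
        exact hjJ ((hbt i (by omega) (by omega)).mp ((hN' i (by omega)).mp h2)).1
      · rintro ⟨h1, h2⟩
        exact ⟨by omega, h2⟩
  -- the information from the fusion
  have hinfo : ∀ j, pos c G y j ∈ (Finset.range ((c.comp G).mx j + 1)).powerset := by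
    intro j
    rw [Finset.mem_powerset]
    intro i hi
    rw [Finset.mem_range]
    exact (mem_trunc.mp hi).1
  have hδc : ∀ j ≥ a, (δ' (pos c G y j) ↔ δ' (pos c G y a)) := by
    intro j hj
    induction j, hj using Nat.le_induction with
    | base => exact Iff.rfl
    | succ j hj ih =>
      by_cases hjJ : j + 1 ∈ J
      · rw [(hF j hj).1 hjJ, ← ih]
        exact (hG j _ (hinfo j)).2.1
      · rw [(hF j hj).2 hjJ]
        exact ih
  obtain ⟨j1, haj1, hj1, -⟩ := exists_next hJ a
  have hδd : ∀ j ≥ j1 + 1, (δ (pos c G y j) ↔ δ' (pos c G y a)) := by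
    intro j hj
    induction j, hj using Nat.le_induction with
    | base =>
      rw [(hF j1 haj1).1 hj1, ← hδc j1 haj1]
      exact (hG j1 _ (hinfo j1)).1
    | succ j hj ih =>
      by_cases hjJ : j + 1 ∈ J
      · rw [(hF j (by omega)).1 hjJ, ← hδc j (by omega)]
        exact (hG j _ (hinfo j)).1
      · rw [(hF j (by omega)).2 hjJ]
        exact ih
  have hgood : ∀ j ≥ j1 + 1, j + 1 ∉ J →
      (Good c p (O (G.mn (j + 1))) (pos c G y (j + 1)) ↔ δ' (pos c G y a)) := by
    intro j hj hjJ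
    rw [(hF j (by omega)).2 hjJ, ← hδd j hj, ← mnF_c]
    exact (hG j _ (hinfo j)).2.2.1
  have hle : ∀ l, G.mn l ≤ (c.comp G).mx l := by
    intro l
    have h1 : c.mx (G.mn l) ∈ (c.comp G).c l := c.mem_fu.mpr ⟨_, G.mn_mem l, c.mx_mem _⟩
    exact (c.index_le (c.mx_mem (G.mn l))).trans ((c.comp G).le_mx h1)
  by_cases hε : δ' (pos c G y a)
  · left
    refine eventually_atTop.mpr ⟨j1 + 2, fun l hl hlJ => ?_⟩
    obtain ⟨j, rfl⟩ : ∃ j, l = j + 1 := ⟨l - 1, by omega⟩
    have h1 := (hgood j (by omega) hlJ).mpr hε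
    refine hBs _ _ h1 G J y (j + 1) hJ (hF.mono (by omega)) rfl fun i hi hiJ => ?_
    refine ((hG i _ (hinfo i)).2.2.2 (G.mn (j + 1)) ?_).2 _ ?_
    · rw [Finset.mem_range]
      have h2 := hle (j + 1)
      have h3 := (c.comp G).mx_strictMono.monotone (hi : j + 1 ≤ i)
      omega
    · rw [Finset.mem_powerset]
      exact pos_mono hi
  · right
    refine eventually_atTop.mpr ⟨j1 + 2, fun l hl hlJ => ?_⟩
    obtain ⟨j, rfl⟩ : ∃ j, l = j + 1 := ⟨l - 1, by omega⟩
    have h1 : ¬ Good c p (O (G.mn (j + 1))) (pos c G y (j + 1)) :=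
      fun h => hε ((hgood j (by omega) hlJ).mp h)
    refine not_good (hO _) hJ (hF.mono (show a ≤ j + 1 by omega)) h1 fun i hi hiJ hng => ?_
    refine ((hG i _ (hinfo i)).2.2.2 (G.mn (j + 1)) ?_).1 hng
    rw [Finset.mem_range]
    have h2 := hle (j + 1)
    have h3 := (c.comp G).mx_strictMono.monotone (hi : j + 1 ≤ i)
    omega

end Pool.Agent.MP_bc74b8_gt.CHL
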