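import Pool.Agent.Lib.MP_bc74b8_gt.CH.Lower

set_option autoImplicit false

namespace Pool.Agent.MP_bc74b8_gt.CHL

open Filter Set Classical

/-- the trivial block sequence -/
def recBase : Blk where
  c i := {i}
  ne _ := Finset.singleton_nonempty _
  lt i a ha b hb := by
    rw [Finset.mem_singleton] at ha hb
    omega

/-- a well-order of length `ω₁` has countable initial segments -/
theorem rec_wellOrder {S : Type} (hS : Cardinal.mk S = Cardinal.aleph 1) :
    ∃ r : S → S → Prop, IsWellOrder S r ∧ ∀ s, {t | r t s}.Countable := by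
  obtain ⟨r, wo, hr⟩ := Cardinal.exists_ord_eq S
  refine ⟨r, wo, fun s => ?_⟩
  have h1 : Ordinal.typein r s < (Cardinal.mk S).ord := by
    rw [hr]
    exact Ordinal.typein_lt_type r s
  rw [Cardinal.lt_ord, hS] at h1
  have h2 : Cardinal.mk {t // r t s} = (Ordinal.typein r s).card := Ordinal.card_typein s
  rw [← Cardinal.succ_aleph0, Order.lt_succ_iff, ← h2] at h1
  exact Cardinal.le_aleph0_iff_set_countable.mp h1

/-- the recursion step -/
noncomputable def recStep {S : Type} (r : S → S → Prop)
    (Q : S → Set (Set ℕ) → Blk → Blk → Prop) (s : S)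
    (prev : ∀ t, r t s → Blk × Blk) : Blk × Blk :=
  let c0 : Blk := if h : ∃ d : Blk, ∀ t (ht : r t s), d.Le (prev t ht).2 then h.choose else recBase
  let Y : Set (Set ℕ) := {y | ∃ t, ∃ ht : r t s, AEq y (prev t ht).1.un}
  let c1 : Blk := if h : ∃ d : Blk, d.Le c0 ∧ Q s Y c0 d then h.choose else c0
  (c0, c1)

/-- The recursion of length omega one. -/
theorem exists_rec {S : Type} (hS : Cardinal.mk S = Cardinal.aleph 1)
    (Q : S → Set (Set ℕ) → Blk → Blk → Prop)
    (hQ : ∀ s (Y : Set (Set ℕ)), Y.Countable → ∀ c, ∃ d : Blk, d.Le c ∧ Q s Y c d) :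
    ∃ (r : S → S → Prop) (c0 c1 : S → Blk), IsWellOrder S r ∧ (∀ s, {t | r t s}.Countable) ∧
      (∀ s, (c1 s).Le (c0 s)) ∧ (∀ s t, r t s → (c0 s).Le (c1 t)) ∧
      ∀ s, Q s {y | ∃ t, r t s ∧ AEq y (c0 t).un} (c0 s) (c1 s) := by
  obtain ⟨r, wo, hcount⟩ := rec_wellOrder hS
  have hwf : WellFounded r := wo.toIsWellFounded.wf
  let F : S → Blk × Blk := hwf.fix (recStep r Q)
  have hF : ∀ s, F s = recStep r Q s (fun t _ => F t) := fun s => hwf.fix_eq (recStep r Q) s
  have hYc : ∀ s, {y | ∃ t, r t s ∧ AEq y (F t).1.un}.Countable := by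
    intro s
    have : {y | ∃ t, r t s ∧ AEq y (F t).1.un} = ⋃ t ∈ {t | r t s}, {y | AEq y (F t).1.un} := by
      ext y
      simp
    rw [this]
    exact (hcount s).biUnion fun t _ => countable_aeq _
  have h1 : ∀ s, (F s).2.Le (F s).1 ∧
      Q s {y | ∃ t, r t s ∧ AEq y (F t).1.un} (F s).1 (F s).2 := by
    intro s
    have hY : {y | ∃ t, r t s ∧ AEq y (F t).1.un} =
        {y | ∃ t, ∃ _ht : r t s, AEq y (F t).1.un} := by
      ext y
      simp
    have hex : ∃ d : Blk, d.Le (F s).1 ∧
        Q s {y | ∃ t, ∃ _ht : r t s, AEq y (F t).1.un} (F s).1 d := by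
      rw [← hY]
      exact hQ s _ (hYc s) _
    have hF2 : (F s).2 = hex.choose := by
      have h3 := hF s
      have h4 : (F s).1 = (recStep r Q s (fun t _ => F t)).1 := by rw [← h3]
      have h5 : (F s).2 = (recStep r Q s (fun t _ => F t)).2 := by rw [← h3]
      rw [h5]
      have h6 : (recStep r Q s (fun t _ => F t)).2 =
          if h : ∃ d : Blk, d.Le (recStep r Q s (fun t _ => F t)).1 ∧
            Q s {y | ∃ t, ∃ _ht : r t s, AEq y (F t).1.un}
              (recStep r Q s (fun t _ => F t)).1 d then h.choose
          else (recStep r Q s (fun t _ => F t)).1 := rfl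
      rw [h6]
      simp only [← h4]
      rw [dif_pos hex]
    rw [hY, hF2]
    exact hex.choose_spec
  have h2 : ∀ s, (∃ d : Blk, ∀ t, r t s → d.Le (F t).2) → ∀ t, r t s → (F s).1.Le (F t).2 := by
    intro s hex
    have h4 : (F s).1 = (recStep r Q s (fun t _ => F t)).1 := by rw [← hF s]
    have h5 : (recStep r Q s (fun t _ => F t)).1 = hex.choose := dif_pos hex
    rw [h4, h5]
    exact hex.choose_spec
  have h3 : ∀ s, ∀ t, r t s → (F s).1.Le (F t).2 := by
    intro s
    induction s using hwf.induction with
    | _ s ih =>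
      apply h2
      rcases Set.eq_empty_or_nonempty {t | r t s} with he | hne
      · refine ⟨recBase, fun t ht => ?_⟩
        have : t ∈ ({t | r t s} : Set S) := ht
        rw [he] at this
        exact absurd this (Set.notMem_empty t)
      · obtain ⟨f, hf⟩ := (hcount s).exists_eq_range hne
        have hfs : ∀ n, r (f n) s := by
          intro n
          have : f n ∈ ({t | r t s} : Set S) := by rw [hf]; exact Set.mem_range_self n
          exact this
        have hmax : ∀ n : ℕ, ∃ t, r t s ∧ ∀ i ≤ n, f i = t ∨ r (f i) t := by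
          intro n
          induction n with
          | zero =>
            refine ⟨f 0, hfs 0, fun i hi => ?_⟩
            rw [Nat.le_zero.mp hi]
            exact Or.inl rfl
          | succ n ihn =>
            obtain ⟨t, hts, ht⟩ := ihn
            rcases @trichotomous_of S r _ (f (n + 1)) t with h | h | h
            · refine ⟨t, hts, fun i hi => ?_⟩
              rcases Nat.le_succ_iff.mp hi with h' | h'
              · exact ht i h'
              · rw [h']; exact Or.inr h
            · refine ⟨t, hts, fun i hi => ?_⟩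
              rcases Nat.le_succ_iff.mp hi with h' | h'
              · exact ht i h'
              · rw [h']; exact Or.inl h
            · refine ⟨f (n + 1), hfs _, fun i hi => ?_⟩
              rcases Nat.le_succ_iff.mp hi with h' | h'
              · rcases ht i h' with h'' | h''
                · rw [h'']; exact Or.inr h
                · exact Or.inr (_root_.trans h'' h)
              · rw [h']; exact Or.inl rfl
        obtain ⟨d, hd⟩ := exists_lower (fun n => (F (f n)).2) (by
          intro n
          obtain ⟨t, hts, ht⟩ := hmax n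
          refine ⟨(F t).2, fun i hi => ?_⟩
          rcases ht i hi with h | h
          · simp only [h]
            exact Blk.Le.refl _
          · exact (h1 t).1.trans (ih t hts (f i) h))
        refine ⟨d, fun t ht => ?_⟩
        have : t ∈ Set.range f := by rw [← hf]; exact ht
        obtain ⟨n, rfl⟩ := this
        exact hd n
  exact ⟨r, fun s => (F s).1, fun s => (F s).2, wo, hcount, fun s => (h1 s).1,
    fun s t hts => h3 s t hts, fun s => (h1 s).2⟩

end Pool.Agent.MP_bc74b8_gt.CHL
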